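import Mathlib

/-!
Row A1: the second moment method.

`s = ∑ |A i| / N ≥ |S| p`. Cauchy: `(∑_ω N(ω))² ≤ |⋃ A i| ∑_ω N(ω)²` (`sq_sum_le_card_mul_sum_sq`) with
`N(ω) = #{i ∈ S | ω ∈ A i}`, and `∑_ω N(ω)² = ∑_i |A i| + ∑_{i ≠ j} |A i ∩ A j| ≤ N (s + C s²)`. So
`|⋃ A i| ≥ N s / (1 + C s) ≥ N min (1, s) / (1 + C)`.
-/

set_option autoImplicit false

namespace Pool.Agent.Lib.MP_938ce2_ag_L3

open Finset

theorem second_moment {Ω ι : Type} [DecidableEq Ω] [DecidableEq ι] (S : Finset ι) (A : ι → Finset Ω)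
    (N p C : ℝ) (hN : 0 < N) (hp : 0 < p) (hC : 0 ≤ C) (h1 : ∀ i ∈ S, p * N ≤ ((A i).card : ℝ))
    (h2 : ∀ i ∈ S, ∀ j ∈ S, i ≠ j → ((A i ∩ A j).card : ℝ) ≤ C * p ^ 2 * N) :
    min 1 ((S.card : ℝ) * p) / (1 + C) * N ≤ ((S.biUnion A).card : ℝ) := by
  classical
  set U := S.biUnion A with hU
  have hsub : ∀ i ∈ S, A i ⊆ U := fun i hi => subset_biUnion_of_mem A hi
  set f : Ω → ℝ := fun ω => ∑ i ∈ S, if ω ∈ A i then (1 : ℝ) else 0 with hf
  set T1 : ℝ := ∑ i ∈ S, ((A i).card : ℝ) with hT1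
  have e1 : ∑ ω ∈ U, f ω = T1 := by
    rw [hf, hT1, sum_comm]
    refine sum_congr rfl fun i hi => ?_
    rw [sum_ite_mem, inter_eq_right.mpr (hsub i hi), sum_const, nsmul_eq_mul, mul_one]
  have e2 : ∑ ω ∈ U, f ω ^ 2 = ∑ i ∈ S, ∑ j ∈ S, ((A i ∩ A j).card : ℝ) := by
    have h3 : ∀ ω ∈ U, f ω ^ 2 = ∑ i ∈ S, ∑ j ∈ S, if ω ∈ A i ∩ A j then (1 : ℝ) else 0 := by
      intro ω _
      rw [hf, pow_two, sum_mul_sum]
      refine sum_congr rfl fun i _ => sum_congr rfl fun j _ => ?_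
      by_cases h4 : ω ∈ A i <;> by_cases h5 : ω ∈ A j <;> simp [h4, h5, mem_inter]
    rw [sum_congr rfl h3, sum_comm]
    refine sum_congr rfl fun i hi => ?_
    rw [sum_comm]
    refine sum_congr rfl fun j _ => ?_
    rw [sum_ite_mem, inter_eq_right.mpr (inter_subset_left.trans (hsub i hi)), sum_const,
      nsmul_eq_mul, mul_one]
  have hs1 : (S.card : ℝ) * p * N ≤ T1 := by
    have h3 : ∑ _i ∈ S, p * N ≤ T1 := sum_le_sum h1
    rw [sum_const, nsmul_eq_mul] at h3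
    linarith
  have e3 : ∑ i ∈ S, ∑ j ∈ S, ((A i ∩ A j).card : ℝ) ≤ T1 + (S.card : ℝ) ^ 2 * (C * p ^ 2 * N) := by
    have h3 : ∀ i ∈ S, ∑ j ∈ S, ((A i ∩ A j).card : ℝ) ≤ ((A i).card : ℝ)
        + (S.card : ℝ) * (C * p ^ 2 * N) := by
      intro i hi
      rw [← add_sum_erase S _ hi, inter_self]
      refine add_le_add le_rfl ?_
      calc ∑ j ∈ S.erase i, ((A i ∩ A j).card : ℝ) ≤ ∑ _j ∈ S.erase i, (C * p ^ 2 * N) := by
            refine sum_le_sum fun j hj => ?_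
            exact h2 i hi j (mem_of_mem_erase hj) (Ne.symm (ne_of_mem_erase hj))
        _ = ((S.erase i).card : ℝ) * (C * p ^ 2 * N) := by rw [sum_const, nsmul_eq_mul]
        _ ≤ (S.card : ℝ) * (C * p ^ 2 * N) := by
            apply mul_le_mul_of_nonneg_right _ (by positivity)
            exact_mod_cast card_le_card (erase_subset i S)
    calc ∑ i ∈ S, ∑ j ∈ S, ((A i ∩ A j).card : ℝ)
        ≤ ∑ i ∈ S, (((A i).card : ℝ) + (S.card : ℝ) * (C * p ^ 2 * N)) := sum_le_sum h3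
      _ = T1 + (S.card : ℝ) ^ 2 * (C * p ^ 2 * N) := by
        rw [sum_add_distrib, sum_const, nsmul_eq_mul]
        ring
  have hcs := sq_sum_le_card_mul_sum_sq (s := U) (f := f)
  rw [e1, e2] at hcs
  have hT0 : 0 ≤ T1 := by
    have : (0 : ℝ) ≤ (S.card : ℝ) * p * N := by positivity
    linarith
  rcases hT0.eq_or_lt with h0 | hpos
  · have h3 : (S.card : ℝ) * p * N ≤ 0 := by rw [h0]; exact hs1
    have h4 : (S.card : ℝ) * p ≤ 0 := by
      by_contra hc
      push Not at hc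
      have := mul_pos hc hN
      linarith
    have h5 : min 1 ((S.card : ℝ) * p) / (1 + C) * N ≤ 0 := by
      apply mul_nonpos_of_nonpos_of_nonneg _ hN.le
      apply div_nonpos_of_nonpos_of_nonneg _ (by positivity)
      exact (min_le_right _ _).trans h4
    exact h5.trans (Nat.cast_nonneg _)
  · have hU0 : (0 : ℝ) ≤ (U.card : ℝ) := Nat.cast_nonneg _
    -- the number of pairs in terms of `T1`
    have h6 : (S.card : ℝ) ^ 2 * (C * p ^ 2 * N) * N ≤ C * T1 ^ 2 := by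
      have h7 : ((S.card : ℝ) * p * N) ^ 2 ≤ T1 ^ 2 := by
        apply pow_le_pow_left₀ (by positivity) hs1
      calc (S.card : ℝ) ^ 2 * (C * p ^ 2 * N) * N = C * ((S.card : ℝ) * p * N) ^ 2 := by ring
        _ ≤ C * T1 ^ 2 := mul_le_mul_of_nonneg_left h7 hC
    have h8 : T1 * N ≤ (U.card : ℝ) * (N + C * T1) := by
      have h9 : T1 ^ 2 * N ≤ (U.card : ℝ) * (T1 * N + C * T1 ^ 2) := by
        calc T1 ^ 2 * N ≤ ((U.card : ℝ) * ∑ i ∈ S, ∑ j ∈ S, ((A i ∩ A j).card : ℝ)) * N :=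
              mul_le_mul_of_nonneg_right hcs hN.le
          _ = (U.card : ℝ) * ((∑ i ∈ S, ∑ j ∈ S, ((A i ∩ A j).card : ℝ)) * N) := by ring
          _ ≤ (U.card : ℝ) * ((T1 + (S.card : ℝ) ^ 2 * (C * p ^ 2 * N)) * N) :=
              mul_le_mul_of_nonneg_left (mul_le_mul_of_nonneg_right e3 hN.le) hU0
          _ ≤ (U.card : ℝ) * (T1 * N + C * T1 ^ 2) := by
              apply mul_le_mul_of_nonneg_left _ hU0
              rw [add_mul]
              linarith
      have h10 : T1 * (T1 * N) ≤ T1 * ((U.card : ℝ) * (N + C * T1)) := by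
        calc T1 * (T1 * N) = T1 ^ 2 * N := by ring
          _ ≤ (U.card : ℝ) * (T1 * N + C * T1 ^ 2) := h9
          _ = T1 * ((U.card : ℝ) * (N + C * T1)) := by ring
      exact le_of_mul_le_mul_left h10 hpos
    -- the minimum
    have hden : 0 < N + C * T1 := add_pos_of_pos_of_nonneg hN (mul_nonneg hC hT0)
    have h11 : min 1 ((S.card : ℝ) * p) * N ≤ T1 ∧ min 1 ((S.card : ℝ) * p) ≤ 1 := by
      refine ⟨?_, min_le_left _ _⟩
      exact (mul_le_mul_of_nonneg_right (min_le_right _ _) hN.le).trans hs1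
    set μ := min 1 ((S.card : ℝ) * p) with hμ
    have hμ0 : 0 ≤ μ := le_min zero_le_one (by positivity)
    have h12 : μ * (N + C * T1) ≤ (1 + C) * T1 := by
      have h13 : C * (μ * T1) ≤ C * T1 := by
        apply mul_le_mul_of_nonneg_left _ hC
        have := mul_le_mul_of_nonneg_right h11.2 hT0
        linarith
      nlinarith [h11.1]
    have h14 : μ / (1 + C) * N * (N + C * T1) ≤ (U.card : ℝ) * (N + C * T1) := by
      calc μ / (1 + C) * N * (N + C * T1) = (μ * (N + C * T1)) / (1 + C) * N := by ring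
        _ ≤ ((1 + C) * T1) / (1 + C) * N := by
            apply mul_le_mul_of_nonneg_right _ hN.le
            exact div_le_div_of_nonneg_right h12 (by positivity)
        _ = T1 * N := by
            rw [mul_div_cancel_left₀ _ (by positivity)]
        _ ≤ (U.card : ℝ) * (N + C * T1) := h8
    exact le_of_mul_le_mul_right h14 hden

end Pool.Agent.Lib.MP_938ce2_ag_L3
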