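import Mathlib

/-!
Row A2: subsets with given numbers of elements in the fibres of `β`.
-/

set_option autoImplicit false

namespace Pool.Agent.Lib.MP_938ce2_ag_L3

open Finset

open Classical in
/-- Subsets of `W` are functions `W → Bool`, and these are families of functions on the fibres
(`Equiv.sigmaFiberEquiv`, `Equiv.piCurry`); or induction on `Z`. -/
theorem count_eq {W Z : Type} [Fintype W] [Fintype Z] (β : W → Z) (n : Z → ℕ) :
    (univ.filter fun η : Finset W => ∀ z, (η.filter fun w => β w = z).card = n z).card
      = ∏ z, ((univ.filter fun w => β w = z).card).choose (n z) := by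
  have h : ∏ z, ((univ.filter fun w => β w = z).card).choose (n z)
      = (Fintype.piFinset fun z => (univ.filter fun w => β w = z).powersetCard (n z)).card := by
    rw [Fintype.card_piFinset]
    exact prod_congr rfl fun z _ => (card_powersetCard _ _).symm
  rw [h]
  refine Finset.card_nbij' (fun η z => η.filter fun w => β w = z)
    (fun g => univ.filter fun w => w ∈ g (β w)) ?_ ?_ ?_ ?_
  · intro η hη
    simp only [coe_filter, mem_univ, true_and, Set.mem_setOf_eq] at hη
    simp only [mem_coe, Fintype.mem_piFinset, mem_powersetCard]
    intro z
    refine ⟨?_, hη z⟩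
    intro w hw
    simp only [mem_filter, mem_univ, true_and] at hw ⊢
    exact hw.2
  · intro g hg
    simp only [mem_coe, Fintype.mem_piFinset, mem_powersetCard] at hg
    simp only [coe_filter, mem_univ, true_and, Set.mem_setOf_eq]
    intro z
    rw [← (hg z).2]
    congr 1
    ext w
    simp only [mem_filter, mem_univ, true_and]
    constructor
    · rintro ⟨h1, h2⟩
      rwa [h2] at h1
    · intro hw
      have := (hg z).1 hw
      simp only [mem_filter, mem_univ, true_and] at this
      rw [this]
      exact ⟨hw, rfl⟩
  · intro η _
    ext w
    simp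
  · intro g hg
    simp only [mem_coe, Fintype.mem_piFinset, mem_powersetCard] at hg
    funext z
    ext w
    simp only [mem_filter, mem_univ, true_and]
    constructor
    · rintro ⟨h1, h2⟩
      rwa [h2] at h1
    · intro hw
      have := (hg z).1 hw
      simp only [mem_filter, mem_univ, true_and] at this
      rw [this]
      exact ⟨hw, rfl⟩

open Classical in
/-- Let the elements of `T` be determined by their values outside `P`. The map
`η ↦ η.filter (β · ∉ P)` has fibres with at most `(r.choose (r / 2)) ^ P.card` elements (for two elements
`η`, `η'` of a fibre the numbers `n z` agree, so `count_eq` for the fibres over `P` and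
`Nat.choose_le_middle`) and at most `2 ^ (card W - r * P.card)` values. -/
theorem count_pivot {W Z : Type} [Fintype W] [Fintype Z] (β : W → Z) (r : ℕ)
    (P : Finset Z) (hr : ∀ z ∈ P, (univ.filter fun w => β w = z).card = r) (T : Set (Z → ℕ))
    (hT : ∀ n ∈ T, ∀ n' ∈ T, (∀ z, z ∉ P → n z = n' z) → n = n') :
    (univ.filter fun η : Finset W => (fun z => (η.filter fun w => β w = z).card) ∈ T).card
        * 2 ^ (r * P.card)
      ≤ 2 ^ Fintype.card W * (r.choose (r / 2)) ^ P.card := by
  set S := univ.filter fun η : Finset W => (fun z => (η.filter fun w => β w = z).card) ∈ T with hS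
  have hB : (univ.filter fun w => β w ∈ P).card = r * P.card := by
    have h1 : (univ.filter fun w => β w ∈ P).card
        = ∑ z ∈ P, ((univ.filter fun w => β w ∈ P).filter fun w => β w = z).card :=
      card_eq_sum_card_fiberwise fun w hw => by
        simp only [coe_filter, mem_univ, true_and, Set.mem_setOf_eq] at hw
        exact hw
    rw [h1]
    have h2 : ∀ z ∈ P, ((univ.filter fun w => β w ∈ P).filter fun w => β w = z).card = r := by
      intro z hz
      rw [← hr z hz, filter_filter]
      congr 1
      ext w
      simp only [mem_filter, mem_univ, true_and]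
      constructor
      · exact fun h => h.2
      · intro h
        exact ⟨h ▸ hz, h⟩
    rw [sum_congr rfl h2, sum_const, smul_eq_mul, mul_comm]
  have hW : Fintype.card W = (univ.filter fun w => β w ∉ P).card + r * P.card := by
    rw [← hB, add_comm, card_filter_add_card_filter_not, card_univ]
  have hfib : ∀ ξ ∈ S.image (fun η => η.filter fun w => β w ∉ P),
      (S.filter fun η => (η.filter fun w => β w ∉ P) = ξ).card ≤ (r.choose (r / 2)) ^ P.card := by
    intro ξ hξ
    obtain ⟨η₀, hη₀, rfl⟩ := mem_image.1 hξ
    set n₀ : Z → ℕ := fun z => (η₀.filter fun w => β w = z).card with hn₀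
    have hη₀T : n₀ ∈ T := (mem_filter.1 hη₀).2
    set n' : Z → ℕ := fun z => if z ∈ P then n₀ z else 0 with hn'
    have hle : (S.filter fun η => (η.filter fun w => β w ∉ P) = η₀.filter fun w => β w ∉ P).card
        ≤ (univ.filter fun η : Finset W => ∀ z, (η.filter fun w => β w = z).card = n' z).card := by
      refine card_le_card_of_injOn (fun η => η.filter fun w => β w ∈ P) ?_ ?_
      · intro η hη
        simp only [coe_filter, Set.mem_setOf_eq] at hη
        have hηT : (fun z => (η.filter fun w => β w = z).card) ∈ T := (mem_filter.1 hη.1).2
        have heq : (fun z => (η.filter fun w => β w = z).card) = n₀ := by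
          refine hT _ hηT _ hη₀T fun z hz => ?_
          have h1 : ∀ ζ : Finset W, (ζ.filter fun w => β w = z)
              = (ζ.filter fun w => β w ∉ P).filter fun w => β w = z := by
            intro ζ
            rw [filter_filter]
            ext w
            simp only [mem_filter]
            constructor
            · rintro ⟨h2, h3⟩
              exact ⟨h2, h3 ▸ hz, h3⟩
            · rintro ⟨h2, _, h3⟩
              exact ⟨h2, h3⟩
          show (η.filter fun w => β w = z).card = (η₀.filter fun w => β w = z).card
          rw [h1 η, h1 η₀, hη.2]
        simp only [coe_filter, mem_univ, true_and, Set.mem_setOf_eq]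
        intro z
        rw [hn']
        by_cases hz : z ∈ P
        · simp only [if_pos hz]
          rw [← congrFun heq z]
          congr 1
          rw [filter_filter]
          ext w
          simp only [mem_filter]
          constructor
          · rintro ⟨h2, _, h3⟩
            exact ⟨h2, h3⟩
          · rintro ⟨h2, h3⟩
            exact ⟨h2, h3 ▸ hz, h3⟩
        · simp only [if_neg hz]
          rw [card_eq_zero, filter_filter, filter_eq_empty_iff]
          rintro w _ ⟨h2, h3⟩
          exact hz (h3 ▸ h2)
      · intro η hη ζ hζ hηζ
        simp only [coe_filter, Set.mem_setOf_eq] at hη hζ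
        have h1 : ∀ x : Finset W, (x.filter fun w => β w ∈ P) ∪ (x.filter fun w => β w ∉ P) = x :=
          fun x => filter_union_filter_not_eq _ x
        rw [← h1 η, ← h1 ζ, hη.2, hζ.2]
        exact congrArg (· ∪ _) hηζ
    refine hle.trans ?_
    rw [count_eq, ← Finset.prod_subset (subset_univ P)]
    · rw [← Finset.prod_const]
      refine prod_le_prod (fun _ _ => Nat.zero_le _) fun z hz => ?_
      rw [hr z hz]
      exact Nat.choose_le_middle _ _
    · intro z _ hz
      rw [hn']
      simp [hz]
  have himg : (S.image (fun η => η.filter fun w => β w ∉ P)).card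
      ≤ 2 ^ (univ.filter fun w => β w ∉ P).card := by
    rw [← card_powerset]
    refine card_le_card ?_
    intro ξ hξ
    obtain ⟨η, _, rfl⟩ := mem_image.1 hξ
    rw [mem_powerset]
    exact filter_subset_filter _ (subset_univ _)
  have h1 := card_le_mul_card_image S _ hfib
  calc S.card * 2 ^ (r * P.card)
      ≤ ((r.choose (r / 2)) ^ P.card * 2 ^ (univ.filter fun w => β w ∉ P).card)
          * 2 ^ (r * P.card) :=
        Nat.mul_le_mul_right _ (h1.trans (Nat.mul_le_mul_left _ himg))
    _ = 2 ^ Fintype.card W * (r.choose (r / 2)) ^ P.card := by
        rw [hW, pow_add]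
        ring

end Pool.Agent.Lib.MP_938ce2_ag_L3
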