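import Mathlib
import Pool.Agent.Lib.MP_938ce2_ag_h85.Count

/-!
Row A3: pivots of a space of functions; binomial coefficients.
-/

set_option autoImplicit false

namespace Pool.Agent.Lib.MP_938ce2_ag_L3

open Finset Module

/-- The evaluations at the points of `Z` span the dual of `U`; choose a basis among them
(`exists_linearIndependent'`). -/
theorem exists_pivot {Z : Type} [Fintype Z] [DecidableEq Z] (U : Submodule ℚ (Z → ℚ)) :
    ∃ P : Finset Z, P.card = finrank ℚ U ∧ ∀ w : Z → ℚ, ∃ u ∈ U, ∀ z ∈ P, u z = w z := by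
  classical
  set ev : Z → Dual ℚ U := fun z => (LinearMap.proj z).comp U.subtype with hev
  obtain ⟨κ, a, hainj, hspan, hli⟩ := exists_linearIndependent' ℚ ev
  have : Finite κ := Finite.of_injective a hainj
  have : Fintype κ := Fintype.ofFinite κ
  set L : U →ₗ[ℚ] (κ → ℚ) := LinearMap.pi (fun j => ev (a j)) with hL
  have hLinj : Function.Injective L := by
    rw [← LinearMap.ker_eq_bot, LinearMap.ker_eq_bot']
    intro u hu
    have h1 : ∀ φ ∈ Submodule.span ℚ (Set.range (ev ∘ a)), φ u = 0 := by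
      intro φ hφ
      induction hφ using Submodule.span_induction with
      | mem x hx =>
        obtain ⟨j, rfl⟩ := hx
        exact congrFun hu j
      | zero => rfl
      | add x y _ _ hx hy => rw [LinearMap.add_apply, hx, hy, add_zero]
      | smul c x _ hx => rw [LinearMap.smul_apply, hx, smul_zero]
    rw [hspan] at h1
    apply Subtype.ext
    funext z
    exact h1 (ev z) (Submodule.subset_span ⟨z, rfl⟩)
  have hc1 : finrank ℚ U ≤ Fintype.card κ := by
    have := LinearMap.finrank_le_finrank_of_injective hLinj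
    rwa [finrank_fintype_fun_eq_card] at this
  have hc2 : Fintype.card κ ≤ finrank ℚ U := by
    have := hli.fintype_card_le_finrank
    rwa [Subspace.dual_finrank_eq] at this
  have hcard : finrank ℚ U = Fintype.card κ := le_antisymm hc1 hc2
  have hLsurj : Function.Surjective L := by
    apply (LinearMap.injective_iff_surjective_of_finrank_eq_finrank _).mp hLinj
    rw [finrank_fintype_fun_eq_card]
    exact hcard
  refine ⟨univ.image a, ?_, fun w => ?_⟩
  · rw [card_image_of_injective _ hainj, card_univ, hcard]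
  · obtain ⟨u, hu⟩ := hLsurj (fun j => w (a j))
    refine ⟨u, u.2, fun z hz => ?_⟩
    rw [mem_image] at hz
    obtain ⟨j, -, rfl⟩ := hz
    exact congrFun hu j

/-- `(∑ C²)² ≤ (∑ C) (∑ C³)`, `∑ C² = centralBinom r` (`Nat.sum_range_choose_sq`?), and
`4 ^ (2 r) ≤ centralBinom r ^ 2 * 4 r` (`Pool.Agent.Lib.MP_938ce2_ag_h85.central_lower`) -/
theorem sum_choose_cube (r : ℕ) (hr : 1 ≤ r) :
    2 ^ (3 * r) ≤ (∑ v ∈ range (r + 1), (r.choose v) ^ 3) * (4 * r) := by
  have h1 : ∑ v ∈ range (r + 1), (r.choose v) ^ 2 = r.centralBinom := Nat.sum_range_choose_sq r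
  have h2 := Nat.sum_range_choose r
  have h3 := Pool.Agent.Lib.MP_938ce2_ag_h85.central_lower hr
  have h4 : (∑ v ∈ range (r + 1), (r.choose v) ^ 2) ^ 2 ≤
      (∑ v ∈ range (r + 1), r.choose v) * ∑ v ∈ range (r + 1), (r.choose v) ^ 3 := by
    have h5 : (∑ v ∈ range (r + 1), ((r.choose v : ℝ)) ^ 2) ^ 2 ≤
        (∑ v ∈ range (r + 1), (r.choose v : ℝ)) * ∑ v ∈ range (r + 1), ((r.choose v : ℝ)) ^ 3 := by
      apply sum_sq_le_sum_mul_sum_of_sq_le_mul
      · intro i _
        positivity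
      · intro i _
        positivity
      · intro i _
        exact le_of_eq (by ring)
    exact_mod_cast h5
  rw [h1, h2] at h4
  have h5 : 2 ^ r * 2 ^ (3 * r) ≤
      2 ^ r * ((∑ v ∈ range (r + 1), (r.choose v) ^ 3) * (4 * r)) := by
    calc 2 ^ r * 2 ^ (3 * r) = 4 ^ (2 * r) := by
          rw [← pow_add, show (4 : ℕ) = 2 ^ 2 by norm_num, ← pow_mul]
          congr 1
          ring
      _ ≤ r.centralBinom ^ 2 * (4 * r) := h3
      _ ≤ (2 ^ r * ∑ v ∈ range (r + 1), (r.choose v) ^ 3) * (4 * r) :=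
          Nat.mul_le_mul_right _ h4
      _ = _ := by ring
  exact Nat.le_of_mul_le_mul_left h5 (by positivity)

/-- `h85.mid_upper` -/
theorem choose_mid_le (r : ℕ) (hr : 1 ≤ r) :
    (r.choose (r / 2) : ℝ) ≤ 2 ^ r / √r := by
  have h1 := Pool.Agent.Lib.MP_938ce2_ag_h85.mid_upper r
  have h2 : Pool.Agent.Lib.MP_938ce2_ag_h85.mid r = r.choose (r / 2) := rfl
  rw [h2] at h1
  have h1' : ((r.choose (r / 2) : ℝ)) ^ 2 * (r + 1) ≤ 4 ^ r := by exact_mod_cast h1
  have hr0 : (0 : ℝ) < √r := Real.sqrt_pos.mpr (by exact_mod_cast hr)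
  rw [le_div_iff₀ hr0]
  refine (sq_le_sq₀ (by positivity) (by positivity)).mp ?_
  rw [mul_pow, Real.sq_sqrt (Nat.cast_nonneg r), ← pow_mul, mul_comm r 2, pow_mul]
  norm_num
  nlinarith [sq_nonneg ((r.choose (r / 2) : ℝ))]

/-- `h85.central_lower` -/
theorem choose_mid_ge (r : ℕ) (hr : 1 ≤ r) (he : Even r) :
    (2 : ℝ) ^ r / (2 * √r) ≤ (r.choose (r / 2) : ℝ) := by
  obtain ⟨n, hn⟩ := he
  have hn' : r = 2 * n := by omega
  subst hn'
  have hn1 : 1 ≤ n := by omega
  have h1 := Pool.Agent.Lib.MP_938ce2_ag_h85.central_lower hn1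
  have h2 : 2 * n / 2 = n := by omega
  rw [h2]
  have h3 : (2 * n).choose n = n.centralBinom := rfl
  rw [h3]
  have h1' : (4 : ℝ) ^ (2 * n) ≤ ((n.centralBinom : ℝ)) ^ 2 * (4 * n) := by exact_mod_cast h1
  have hr0 : (0 : ℝ) < √((2 * n : ℕ) : ℝ) := Real.sqrt_pos.mpr (by
    have : 0 < 2 * n := by omega
    exact_mod_cast this)
  rw [div_le_iff₀ (by positivity)]
  refine (sq_le_sq₀ (by positivity) (by positivity)).mp ?_
  rw [mul_pow, mul_pow, Real.sq_sqrt (Nat.cast_nonneg _), ← pow_mul, mul_comm (2 * n) 2, pow_mul]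
  norm_num
  nlinarith [sq_nonneg ((n.centralBinom : ℝ)), (Nat.cast_nonneg n : (0 : ℝ) ≤ n),
    mul_nonneg (sq_nonneg ((n.centralBinom : ℝ))) (Nat.cast_nonneg n : (0 : ℝ) ≤ n)]

end Pool.Agent.Lib.MP_938ce2_ag_L3
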