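import Pool.Agent.Lib.MP_938ce2_ag_L3.LD

/-!
Row B1: the block map.
-/

set_option autoImplicit false
set_option linter.unusedSectionVars false

namespace Pool.Agent.Lib.MP_938ce2_ag_L3

open Finset Module
open Pool.Agent.Lib.MP_938ce2_ag_h67 (sg)
open Pool.Agent.Lib.MP_938ce2_ag_h60 (CMType GeneratedByDivisors Nondeg)
open Pool.Agent.Lib.MP_938ce2_ag_u2 (Act)

variable {G X : Type} [Group G] [Fintype G] [MulAction G X] [Fintype X] [DecidableEq X]
  [MulAction.IsPretransitive G X] {c : G} {g : ℕ}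

/-- the block map is equivariant -/
private lemma blk_smul (x0 : X) (K : Subgroup G) (β : X → G ⧸ K)
    (hβ : ∀ σ : G, β (σ • x0) = (σ : G ⧸ K)) (τ : G) (x : X) : β (τ • x) = τ • β x := by
  obtain ⟨σ, rfl⟩ := MulAction.exists_smul_eq G x0 x
  rw [← mul_smul, hβ, hβ]
  rfl

open Classical in
/-- the block map; all blocks have the same number of elements -/
theorem exists_blk (x0 : X) (K : Subgroup G) (hK : MulAction.stabilizer G x0 ≤ K) :
    ∃ β : X → G ⧸ K, (∀ σ : G, β (σ • x0) = (σ : G ⧸ K)) ∧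
      ∀ z, (univ.filter fun x => β x = z).card * K.index = Fintype.card X := by
  choose s hs using fun x : X => MulAction.exists_smul_eq G x0 x
  have hβ : ∀ σ : G, ((s (σ • x0) : G) : G ⧸ K) = (σ : G ⧸ K) := by
    intro σ
    rw [eq_comm, QuotientGroup.eq]
    apply hK
    rw [MulAction.mem_stabilizer_iff, mul_smul, hs, inv_smul_smul]
  refine ⟨fun x => (s x : G ⧸ K), hβ, ?_⟩
  set β : X → G ⧸ K := fun x => (s x : G ⧸ K) with hβd
  have heq : ∀ (τ : G) (x : X), β (τ • x) = τ • β x := blk_smul x0 K β hβ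
  have hcard : ∀ z z' : G ⧸ K, (univ.filter fun x => β x = z).card
      = (univ.filter fun x => β x = z').card := by
    intro z z'
    obtain ⟨τ, hτ⟩ := MulAction.exists_smul_eq G z z'
    refine Finset.card_bij (fun x _ => τ • x) ?_ ?_ ?_
    · intro x hx
      rw [mem_filter] at hx ⊢
      exact ⟨mem_univ _, by rw [heq, hx.2, hτ]⟩
    · intro x _ y _ h
      exact smul_left_cancel τ h
    · intro y hy
      rw [mem_filter] at hy
      refine ⟨τ⁻¹ • y, ?_, smul_inv_smul τ y⟩
      rw [mem_filter]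
      exact ⟨mem_univ _, by rw [heq, hy.2, ← hτ, inv_smul_smul]⟩
  intro z
  have h1 : Fintype.card X = ∑ z' : G ⧸ K, (univ.filter fun x => β x = z').card := by
    rw [← Finset.card_univ]
    exact Finset.card_eq_sum_card_fiberwise fun x _ => mem_coe.2 (mem_univ _)
  rw [h1, Finset.sum_congr rfl fun z' _ => hcard z' z, Finset.sum_const, smul_eq_mul, mul_comm]
  congr 1
  rw [Subgroup.index_eq_card, Nat.card_eq_fintype_card, Finset.card_univ]

/-- functions in `VK` are odd functions of the block -/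
theorem VK_iff (hA : Act G X c g) (x0 : X) (K : Subgroup G) (β : X → G ⧸ K)
    (hβ : ∀ σ : G, β (σ • x0) = (σ : G ⧸ K)) (v : X → ℚ) :
    v ∈ VK c x0 K ↔ ∃ h : G ⧸ K → ℚ, (∀ σ : G, h ((c * σ : G) : G ⧸ K) = - h (σ : G ⧸ K)) ∧
      ∀ x, v x = h (β x) := by
  rw [mem_VK]
  constructor
  · rintro ⟨h1, h2⟩
    have h3 : ∀ σ : G, v ((Quotient.out (σ : G ⧸ K)) • x0) = v (σ • x0) := by
      intro σ
      obtain ⟨k, hk⟩ := QuotientGroup.mk_out_eq_mul K σ
      rw [hk]
      exact h2 σ k k.2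
    refine ⟨fun z => v ((Quotient.out z) • x0), ?_, ?_⟩
    · intro σ
      simp only [h3]
      rw [mul_smul, h1]
    · intro x
      obtain ⟨σ, rfl⟩ := MulAction.exists_smul_eq G x0 x
      simp only [hβ, h3]
  · rintro ⟨h, h1, h2⟩
    constructor
    · intro x
      obtain ⟨σ, rfl⟩ := MulAction.exists_smul_eq G x0 x
      rw [h2, h2, ← mul_smul, hβ, hβ, h1]
    · intro σ k hk
      rw [h2, h2, hβ, hβ, QuotientGroup.mk_mul_of_mem _ hk]

/-- a CM type which is a union of blocks: choose one of each pair `z`, `c z` of `G ⧸ K`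
(as in `u2.exists_cm`) -/
theorem exists_blk_cm (hA : Act G X c g) (x0 : X) (K : Subgroup G) (hc : c ∉ K) (β : X → G ⧸ K)
    (hβ : ∀ σ : G, β (σ • x0) = (σ : G ⧸ K)) :
    ∃ Φ₀ : Finset X, CMType c Φ₀ ∧ ∀ x y, β x = β y → (x ∈ Φ₀ ↔ y ∈ Φ₀) := by
  classical
  have heq : ∀ (τ : G) (x : X), β (τ • x) = τ • β x := blk_smul x0 K β hβ
  have hfree : ∀ z : G ⧸ K, c • z ≠ z := by
    intro z hz
    induction z using QuotientGroup.induction_on with
    | H σ =>
      have h1 : ((σ * c : G) : G ⧸ K) = (σ : G ⧸ K) := by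
        rw [← hA.comm]
        exact hz
      rw [eq_comm, QuotientGroup.eq, inv_mul_cancel_left] at h1
      exact hc h1
  have hcc : ∀ z : G ⧸ K, c • c • z = z := by
    intro z
    rw [← mul_smul, hA.sq, one_smul]
  let e := Fintype.equivFin (G ⧸ K)
  refine ⟨Finset.univ.filter fun x => e (β x) < e (c • β x), fun x => ?_, fun x y hxy => ?_⟩
  · rw [Finset.mem_filter, Finset.mem_filter, heq, hcc]
    have h1 : e (c • β x) ≠ e (β x) := fun h => hfree _ (e.injective h)
    constructor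
    · rintro ⟨-, h⟩ ⟨-, h2⟩
      exact lt_asymm h h2
    · intro h
      refine ⟨Finset.mem_univ _, ?_⟩
      rcases lt_trichotomy (e (β x)) (e (c • β x)) with h2 | h2 | h2
      · exact h2
      · exact (h1 h2.symm).elim
      · exact (h ⟨Finset.mem_univ _, h2⟩).elim
  · rw [Finset.mem_filter, Finset.mem_filter, hxy]
    exact ⟨fun h => ⟨mem_univ _, h.2⟩, fun h => ⟨mem_univ _, h.2⟩⟩

end Pool.Agent.Lib.MP_938ce2_ag_L3
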