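import Pool.Agent.Lib.MP_938ce2_ag_L3.LD

/-!
Row B10: there are few CM types which are not primitive.
-/

set_option autoImplicit false
set_option linter.unusedSectionVars false

namespace Pool.Agent.Lib.MP_938ce2_ag_L3

open Finset Module
open Pool.Agent.Lib.MP_938ce2_ag_h67 (sg)
open Pool.Agent.Lib.MP_938ce2_ag_h60 (CMType GeneratedByDivisors Nondeg)
open Pool.Agent.Lib.MP_938ce2_ag_u2 (Act)

variable {G X : Type} [Group G] [Fintype G] [MulAction G X] [Fintype X] [DecidableEq X]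
  [MulAction.IsPretransitive G X] {c : G} {g : ℕ}

open Classical in
/-- the types which do not separate the pairs `σ x0`, `σ y` -/
private lemma card_S (hA : Act G X c g) (x0 y : X) (hy : y ≠ x0) :
    (univ.filter fun Φ : Finset X => CMType c Φ ∧ ∀ σ : G, σ • x0 ∈ Φ ↔ σ • y ∈ Φ).card
      ≤ 2 ^ (g / 2) := by
  obtain ⟨S, hS⟩ : ∃ S : Finset (Finset X), S = univ.filter fun Φ : Finset X =>
    CMType c Φ ∧ ∀ σ : G, σ • x0 ∈ Φ ↔ σ • y ∈ Φ := ⟨_, rfl⟩
  rw [← hS]
  have hmem : ∀ Φ, Φ ∈ S ↔ CMType c Φ ∧ ∀ σ : G, σ • x0 ∈ Φ ↔ σ • y ∈ Φ := by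
    intro Φ
    rw [hS]
    simp only [mem_filter, mem_univ, true_and]
  rcases S.eq_empty_or_nonempty with h0 | ⟨Φ₀, hΦ₀⟩
  · rw [h0, card_empty]
    exact Nat.zero_le _
  -- the class of `x`
  obtain ⟨q, hq⟩ : ∃ q : X → Finset (Finset X), ∀ x, q x = S.filter fun Φ => x ∈ Φ :=
    ⟨_, fun _ => rfl⟩
  have hqm : ∀ x, ∀ Φ ∈ S, (Φ ∈ q x ↔ x ∈ Φ) := by
    intro x Φ hΦ
    rw [hq, mem_filter]
    exact ⟨fun h => h.2, fun h => ⟨hΦ, h⟩⟩
  have hqe : ∀ x x', q x = q x' → ∀ Φ ∈ S, (x ∈ Φ ↔ x' ∈ Φ) := by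
    intro x x' h Φ hΦ
    rw [← hqm x Φ hΦ, ← hqm x' Φ hΦ, h]
  have hqs : ∀ σ : G, q (σ • x0) = q (σ • y) := by
    intro σ
    rw [hq, hq]
    refine filter_congr fun Φ hΦ => ?_
    exact ((hmem Φ).1 hΦ).2 σ
  have hcm₀ := ((hmem Φ₀).1 hΦ₀).1
  have hg : Φ₀.card = g := by
    have h1 := Pool.Agent.Lib.MP_938ce2_ag_h60.card_cmType hA.sq hcm₀
    rw [hA.card] at h1
    omega
  -- the classes in `Φ₀`
  have hC : (Φ₀.image q).card ≤ g / 2 := by
    have h1 := card_eq_sum_card_image q Φ₀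
    have h2 : ∑ b ∈ Φ₀.image q, 2 ≤ ∑ b ∈ Φ₀.image q, (Φ₀.filter fun x => q x = b).card := by
      refine sum_le_sum fun b hb => ?_
      obtain ⟨x, hx, rfl⟩ := mem_image.1 hb
      obtain ⟨σ, rfl⟩ := MulAction.exists_smul_eq G x0 x
      have h3 : σ • y ≠ σ • x0 := fun h => hy (smul_left_cancel σ h)
      have h4 : ({σ • y, σ • x0} : Finset X) ⊆ Φ₀.filter fun x => q x = q (σ • x0) := by
        intro z hz
        rw [mem_filter]
        rcases mem_insert.1 hz with rfl | hz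
        · exact ⟨(((hmem Φ₀).1 hΦ₀).2 σ).1 hx, (hqs σ).symm⟩
        · rw [mem_singleton] at hz
          subst hz
          exact ⟨hx, rfl⟩
      have h5 := card_le_card h4
      rwa [card_pair h3] at h5
    rw [← h1, sum_const, smul_eq_mul, hg] at h2
    omega
  have hinj : S.card ≤ ((Φ₀.image q).powerset).card := by
    refine card_le_card_of_injOn (fun Φ => (Φ ∩ Φ₀).image q) ?_ ?_
    · intro Φ _
      rw [mem_coe, mem_powerset]
      exact image_subset_image inter_subset_right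
    · intro Φ hΦ Φ' hΦ' h
      have hΦ := mem_coe.1 hΦ
      have hΦ' := mem_coe.1 hΦ'
      change (Φ ∩ Φ₀).image q = (Φ' ∩ Φ₀).image q at h
      have key : ∀ A ∈ S, ∀ B ∈ S, (A ∩ Φ₀).image q = (B ∩ Φ₀).image q →
          ∀ x ∈ Φ₀, x ∈ A → x ∈ B := by
        intro A _ B hB hAB x hx0 hxA
        have h1 : q x ∈ (A ∩ Φ₀).image q := mem_image_of_mem _ (mem_inter.2 ⟨hxA, hx0⟩)
        rw [hAB] at h1
        obtain ⟨x', hx', h2⟩ := mem_image.1 h1
        exact (hqe _ _ h2 B hB).1 (mem_inter.1 hx').1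
      have h1 : ∀ x ∈ Φ₀, (x ∈ Φ ↔ x ∈ Φ') := fun x hx =>
        ⟨key Φ hΦ Φ' hΦ' h x hx, key Φ' hΦ' Φ hΦ h.symm x hx⟩
      ext x
      by_cases hx : x ∈ Φ₀
      · exact h1 x hx
      · have hcx : c • x ∈ Φ₀ := by
          by_contra h2
          exact hx ((hcm₀ x).2 h2)
        have h2 := h1 _ hcx
        have h3 := ((hmem Φ).1 hΦ).1 x
        have h4 := ((hmem Φ').1 hΦ').1 x
        rw [h3, h4, h2]
  rw [card_powerset] at hinj
  exact hinj.trans (Nat.pow_le_pow_right (by norm_num) hC)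

open Classical in
/-- RECIPE. By transitivity a type which is not primitive satisfies `σ x0 ∈ Φ ↔ σ y ∈ Φ` for all `σ`, for
some `y ≠ x0`. Fix `y` and let `S` be the set of these types, suppose it is not empty, and let `x ~ x'` if
`x ∈ Φ ↔ x' ∈ Φ` for all `Φ ∈ S`. Each class has at least two elements (`σ x0 ~ σ y`), so there are at most
`g` classes, `c` permutes them without fixed points (`x ≁ c x`), and `Φ ∈ S` is determined by its image in
the quotient, a CM type of the quotient: at most `2 ^ (g / 2)` (`u2.card_cm_all` for the group generated by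
`c`, or directly). -/
theorem card_not_prim (hA : Act G X c g) :
    (univ.filter fun Φ : Finset X => CMType c Φ ∧ ¬ Prim G Φ).card ≤ 2 * g * 2 ^ (g / 2) := by
  have hpos : 0 < Fintype.card X := by
    rw [hA.card]
    have := hA.pos
    omega
  obtain ⟨x0⟩ : Nonempty X := Fintype.card_pos_iff.1 hpos
  have hsub : (univ.filter fun Φ : Finset X => CMType c Φ ∧ ¬ Prim G Φ) ⊆
      ((univ : Finset X).erase x0).biUnion fun y =>
        univ.filter fun Φ : Finset X => CMType c Φ ∧ ∀ σ : G, σ • x0 ∈ Φ ↔ σ • y ∈ Φ := by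
    intro Φ hΦ
    rw [mem_filter] at hΦ
    obtain ⟨-, hcm, hp⟩ := hΦ
    unfold Prim at hp
    push Not at hp
    obtain ⟨x, y, hxy, hne⟩ := hp
    obtain ⟨τ, rfl⟩ := MulAction.exists_smul_eq G x0 x
    rw [mem_biUnion]
    refine ⟨τ⁻¹ • y, ?_, ?_⟩
    · rw [mem_erase]
      refine ⟨fun h => hne ?_, mem_univ _⟩
      rw [← h, smul_inv_smul]
    · rw [mem_filter]
      refine ⟨mem_univ _, hcm, fun σ => ?_⟩
      have h1 := hxy (σ * τ⁻¹)
      rwa [mul_smul, inv_smul_smul, mul_smul] at h1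
  refine (card_le_card hsub).trans ((card_biUnion_le_card_mul _ _ (2 ^ (g / 2))
    fun y hy => card_S hA x0 y (mem_erase.1 hy).1).trans ?_)
  refine Nat.mul_le_mul_right _ ?_
  refine (card_le_card (erase_subset _ _)).trans ?_
  rw [card_univ, hA.card]

end Pool.Agent.Lib.MP_938ce2_ag_L3
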