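import Pool.Agent.Lib.MP_938ce2_ag_L3.B1
import Pool.Agent.Lib.MP_938ce2_ag_L3.A2
import Pool.Agent.Lib.MP_938ce2_ag_L3.A3

/-!
Row B4: lower bounds for one event.
-/

set_option autoImplicit false
set_option linter.unusedSectionVars false

namespace Pool.Agent.Lib.MP_938ce2_ag_L3

open Finset Module
open Pool.Agent.Lib.MP_938ce2_ag_h67 (sg)
open Pool.Agent.Lib.MP_938ce2_ag_h60 (CMType GeneratedByDivisors Nondeg)
open Pool.Agent.Lib.MP_938ce2_ag_u2 (Act)

variable {G X : Type} [Group G] [Fintype G] [MulAction G X] [Fintype X] [DecidableEq X]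
  [MulAction.IsPretransitive G X] {c : G} {g : ℕ}

private lemma sum_sg {W : Type} [DecidableEq W] (η S : Finset W) :
    ∑ w ∈ S, (sg η w : ℚ) = 2 * ((η ∩ S).card : ℚ) - S.card := by
  have h1 : ∀ w ∈ S, (sg η w : ℚ) = 2 * (if w ∈ η then 1 else 0) - 1 := by
    intro w _
    unfold sg
    split_ifs <;> norm_num
  rw [sum_congr rfl h1, sum_sub_distrib, ← mul_sum, sum_boole]
  simp only [sum_const, nsmul_eq_mul, mul_one]
  congr 3
  congr 1
  ext w
  simp only [mem_filter, mem_inter]
  exact and_comm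

open Classical in
/-- the types with `v` elements in each block of the CM type `Φ₀` -/
private theorem lower_aux (hA : Act G X c g) (x0 : X) (K : Subgroup G)
    (β : X → G ⧸ K) (hβ : ∀ σ : G, β (σ • x0) = (σ : G ⧸ K)) (r m : ℕ)
    (hfib : ∀ z, (univ.filter fun x => β x = z).card = r) (hm : m * r = g) {Φ₀ : Finset X}
    (h₀ : CMType c Φ₀) (hun : ∀ x y, β x = β y → (x ∈ Φ₀ ↔ y ∈ Φ₀))
    (V : Submodule ℚ (X → ℚ)) (hV : V ≤ VK c x0 K) (N : Finset ℕ)
    (hN : ∀ v ∈ N, ∀ f ∈ V, (2 * (v : ℚ) - r) * ∑ x ∈ Φ₀, f x = 0) :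
    ∑ v ∈ N, (r.choose v) ^ m ≤ (orthT c V).card := by
  have hr : 0 < r := by
    rcases Nat.eq_zero_or_pos r with h | h
    · have := hA.pos
      rw [← hm, h] at this
      omega
    · exact h
  have hVβ : ∀ v ∈ V, ∀ x y, β x = β y → v x = v y := by
    intro v hv x y hxy
    obtain ⟨h, -, h2⟩ := (VK_iff hA x0 K β hβ v).1 (hV hv)
    rw [h2, h2, hxy]
  let Z := {z : G ⧸ K // ∃ x ∈ Φ₀, β x = z}
  let βW : {x // x ∈ Φ₀} → Z := fun w => ⟨β w, w, w.2, rfl⟩
  let s : Z → X := fun z => z.2.choose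
  have hs1 : ∀ z : Z, s z ∈ Φ₀ := fun z => z.2.choose_spec.1
  have hs2 : ∀ z : Z, β (s z) = z.1 := fun z => z.2.choose_spec.2
  have hfibW : ∀ z : Z, (univ.filter fun w => βW w = z).card = r := by
    intro z
    rw [← hfib z.1]
    refine card_bij (fun w _ => w.1) ?_ ?_ ?_
    · intro w hw
      rw [mem_filter] at hw ⊢
      exact ⟨mem_univ _, congrArg Subtype.val hw.2⟩
    · intro w _ w' _ h
      exact Subtype.ext h
    · intro x hx
      rw [mem_filter] at hx
      have hx0 : x ∈ Φ₀ := (hun (s z) x ((hs2 z).trans hx.2.symm)).1 (hs1 z)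
      refine ⟨⟨x, hx0⟩, ?_, rfl⟩
      rw [mem_filter]
      exact ⟨mem_univ _, Subtype.ext hx.2⟩
  have hZ : Fintype.card Z = m := by
    have h1 : Fintype.card {x // x ∈ Φ₀} = Fintype.card Z * r := by
      have h2 := card_eq_sum_card_fiberwise (f := βW) (s := univ) (t := univ)
        (fun w _ => mem_coe.2 (mem_univ _))
      rw [sum_congr rfl fun z _ => hfibW z, sum_const, smul_eq_mul, card_univ, card_univ] at h2
      exact h2
    rw [Pool.Agent.Lib.MP_938ce2_ag_u2.card_cm hA h₀, ← hm] at h1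
    exact (Nat.eq_of_mul_eq_mul_right hr h1).symm
  have hZne : Nonempty Z := by
    rw [← Fintype.card_pos_iff, hZ]
    rcases Nat.eq_zero_or_pos m with h | h
    · have := hA.pos
      rw [← hm, h] at this
      omega
    · exact h
  have hcnt : ∀ v, (univ.filter fun η : Finset {x // x ∈ Φ₀} =>
      ∀ z, (η.filter fun w => βW w = z).card = v).card = (r.choose v) ^ m := by
    intro v
    have h1 := count_eq βW fun _ => v
    have h2 : ∏ z : Z, ((univ.filter fun w => βW w = z).card).choose v = (r.choose v) ^ m := by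
      rw [prod_congr rfl fun z _ => by rw [hfibW z], prod_const, card_univ, hZ]
    rw [← h2]
    convert h1
  have e2 := Pool.Agent.Lib.MP_938ce2_ag_u2.card_cm_filter hA h₀
    (fun Φ => ∀ v ∈ V, ∑ x, (sg Φ x : ℚ) * v x = 0)
  have e3 : (orthT c V).card = (univ.filter fun η : Finset {x // x ∈ Φ₀} =>
        ∀ v ∈ V, ∑ x, (sg (Pool.Agent.Lib.MP_938ce2_ag_u2.cmExt c Φ₀ η) x : ℚ) * v x = 0).card := by
    have e1 : (orthT c V).card = (univ.filter fun Φ : Finset X => CMType c Φ ∧
      ∀ v ∈ V, ∑ x, (sg Φ x : ℚ) * v x = 0).card := rfl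
    rw [e1]
    convert e2
  rw [e3, ← sum_congr rfl fun v _ => hcnt v]
  rw [← card_biUnion]
  · refine card_le_card fun η hη => ?_
    rw [mem_biUnion] at hη
    obtain ⟨v, hv, hη⟩ := hη
    rw [mem_filter] at hη ⊢
    refine ⟨mem_univ _, fun f hf => ?_⟩
    have h2 := Pool.Agent.Lib.MP_938ce2_ag_u2.sum_cmExt hA h₀ η f (mem_VK.1 (hV hf)).1
    simp only [zsmul_eq_mul] at h2
    rw [h2]
    have h3 : (r : ℚ) * ∑ w : {x // x ∈ Φ₀}, (sg η w : ℚ) * f w = 0 := by
      rw [← hN v hv f hf]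
      have h4 : ∑ x ∈ Φ₀, f x = ∑ w : {x // x ∈ Φ₀}, f w := (sum_coe_sort Φ₀ f).symm
      rw [h4, ← sum_fiberwise univ βW (fun w : {x // x ∈ Φ₀} => f w),
        ← sum_fiberwise univ βW (fun w : {x // x ∈ Φ₀} => (sg η w : ℚ) * f w), mul_sum, mul_sum]
      refine sum_congr rfl fun z _ => ?_
      have h6 : ∀ w ∈ univ.filter (fun w => βW w = z),
          (sg η w : ℚ) * f w = (sg η w : ℚ) * f (s z) := by
        intro w hw
        rw [mem_filter] at hw
        rw [hVβ f hf w.1 (s z) ((congrArg Subtype.val hw.2).trans (hs2 z).symm)]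
      have h7 : ∀ w ∈ univ.filter (fun w => βW w = z), f w = f (s z) := by
        intro w hw
        rw [mem_filter] at hw
        exact hVβ f hf w.1 (s z) ((congrArg Subtype.val hw.2).trans (hs2 z).symm)
      have h8 : (η ∩ univ.filter (fun w => βW w = z)) = η.filter fun w => βW w = z := by
        ext w
        simp only [mem_inter, mem_filter, mem_univ, true_and]
      have h9 : ((η.filter fun w => βW w = z).card : ℚ) = v := by
        exact_mod_cast hη.2 z
      rw [sum_congr rfl h6, ← sum_mul, sum_sg, hfibW z, h8, h9, sum_congr rfl h7, sum_const,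
        hfibW z, nsmul_eq_mul]
      ring
    have h4 : (r : ℚ) ≠ 0 := by exact_mod_cast hr.ne'
    rw [(mul_eq_zero.1 h3).resolve_left h4]
    simp
  · intro v _ v' _ hvv
    rw [Function.onFun, disjoint_left]
    intro η hη hη'
    rw [mem_filter] at hη hη'
    obtain ⟨z⟩ := hZne
    exact hvv ((hη.2 z).symm.trans (hη'.2 z))

private theorem fib_card (hA : Act G X c g) (K : Subgroup G) (β : X → G ⧸ K) (r : ℕ)
    (hr : r * K.index = 2 * g) (hcard : ∀ z, open Classical in
      (univ.filter fun x => β x = z).card * K.index = Fintype.card X) :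
    ∀ z, open Classical in (univ.filter fun x => β x = z).card = r := by
  intro z
  have hidx : 0 < K.index := Nat.pos_of_ne_zero Subgroup.index_ne_zero_of_finite
  have h1 := hcard z
  rw [hA.card, ← hr] at h1
  exact Nat.eq_of_mul_eq_mul_right hidx h1

/-- RECIPE (for all three). `β` from `exists_blk`, `Φ₀` from `exists_blk_cm` a union of blocks,
`u2.card_cm_filter`, `u2.sum_cmExt`; a type `η ⊆ Φ₀` with `r / 2` elements in each block of `Φ₀` is
orthogonal to `VK`; `count_eq`. For `Sext` choose `Φ₀ = K' x0` (three blocks), a type with the same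
number `v` of elements in the three blocks is orthogonal to `VS`: `∑ x, sg x v x = 2 (2 v - r) ∑ z, h z`
over the three blocks, which is zero because `∑ x ∈ bl K' x0, v x = r ∑ z, h z`. -/
theorem quad_lower (hA : Act G X c g) (x0 : X) (K : Subgroup G) (hK : K ∈ Quad c x0)
    (he : Even g) : g.choose (g / 2) ≤ (orthT c (VK c x0 K)).card := by
  obtain ⟨hK1, hK2, hc⟩ := hK
  obtain ⟨β, hβ, hcard⟩ := exists_blk x0 K hK1
  obtain ⟨Φ₀, h₀, hun⟩ := exists_blk_cm hA x0 K hc β hβ
  have h1 := lower_aux hA x0 K β hβ g 1 (fib_card hA K β g (by rw [hK2]; ring) hcard) (by ring)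
    h₀ hun (VK c x0 K) le_rfl {g / 2} fun v hv f _ => by
      rw [mem_singleton] at hv
      obtain ⟨m, rfl⟩ := he
      have : (v : ℚ) = m := by
        rw [hv]
        congr 1
        omega
      rw [this]
      push_cast
      ring
  simpa using h1

theorem quart_lower (hA : Act G X c g) (x0 : X) (K : Subgroup G)
    (hK : MulAction.stabilizer G x0 ≤ K) (hc : c ∉ K) (h4 : K.index = 4) (r : ℕ) (hr : 2 * r = g)
    (he : Even r) : (r.choose (r / 2)) ^ 2 ≤ (orthT c (VK c x0 K)).card := by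
  obtain ⟨β, hβ, hcard⟩ := exists_blk x0 K hK
  obtain ⟨Φ₀, h₀, hun⟩ := exists_blk_cm hA x0 K hc β hβ
  have h1 := lower_aux hA x0 K β hβ r 2 (fib_card hA K β r (by rw [h4, ← hr]; ring) hcard) hr
    h₀ hun (VK c x0 K) le_rfl {r / 2} fun v hv f _ => by
      rw [mem_singleton] at hv
      obtain ⟨m, rfl⟩ := he
      have : (v : ℚ) = m := by
        rw [hv]
        congr 1
        omega
      rw [this]
      push_cast
      ring
  simpa using h1

theorem sext_lower (hA : Act G X c g) (x0 : X) (K K' : Subgroup G)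
    (hK : MulAction.stabilizer G x0 ≤ K) (h6 : K.index = 6) (hK' : K' ∈ Quad c x0) (hKK : K ≤ K')
    (r : ℕ) (hr : 3 * r = g) :
    ∑ v ∈ range (r + 1), (r.choose v) ^ 3 ≤ (orthT c (VS c x0 K K')).card := by
  obtain ⟨hS, h2, hc⟩ := hK'
  obtain ⟨β, hβ, hcard⟩ := exists_blk x0 K hK
  have hmem : ∀ σ : G, σ • x0 ∈ bl K' x0 ↔ σ ∈ K' := by
    intro σ
    unfold bl
    simp only [mem_filter, mem_univ, true_and]
    constructor
    · rintro ⟨k, hk, hkx⟩
      have h3 : k⁻¹ * σ ∈ MulAction.stabilizer G x0 := by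
        rw [MulAction.mem_stabilizer_iff, mul_smul, ← hkx, inv_smul_smul]
      have h4 := K'.mul_mem hk (hS h3)
      rwa [mul_inv_cancel_left] at h4
    · intro h
      exact ⟨σ, h, rfl⟩
  have h₀ : CMType c (bl K' x0) := by
    intro x
    obtain ⟨σ, rfl⟩ := MulAction.exists_smul_eq G x0 x
    rw [smul_smul, hmem, hmem, Subgroup.mul_mem_iff_of_index_two h2]
    tauto
  have hun : ∀ x y, β x = β y → (x ∈ bl K' x0 ↔ y ∈ bl K' x0) := by
    intro x y hxy
    obtain ⟨σ, rfl⟩ := MulAction.exists_smul_eq G x0 x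
    obtain ⟨τ, rfl⟩ := MulAction.exists_smul_eq G x0 y
    rw [hβ, hβ, QuotientGroup.eq] at hxy
    rw [hmem, hmem]
    have h3 := hKK hxy
    constructor
    · intro h
      have h4 := K'.mul_mem h h3
      rwa [mul_inv_cancel_left] at h4
    · intro h
      have h4 := K'.mul_mem h (K'.inv_mem h3)
      rwa [mul_inv_rev, inv_inv, mul_inv_cancel_left] at h4
  exact lower_aux hA x0 K β hβ r 3 (fib_card hA K β r (by rw [h6, ← hr]; ring) hcard) hr
    h₀ hun (VS c x0 K K') (fun v hv => (mem_VS.1 hv).1) (range (r + 1)) fun v _ f hf => by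
      rw [(mem_VS.1 hf).2, mul_zero]

end Pool.Agent.Lib.MP_938ce2_ag_L3
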