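import Pool.Agent.Lib.MP_938ce2_ag_L3.B1

/-!
Row B5: dimensions.
-/

set_option autoImplicit false
set_option linter.unusedSectionVars false

namespace Pool.Agent.Lib.MP_938ce2_ag_L3

open Finset Module
open Pool.Agent.Lib.MP_938ce2_ag_h67 (sg)
open Pool.Agent.Lib.MP_938ce2_ag_h60 (CMType GeneratedByDivisors Nondeg)
open Pool.Agent.Lib.MP_938ce2_ag_u2 (Act)

variable {G X : Type} [Group G] [Fintype G] [MulAction G X] [Fintype X] [DecidableEq X]
  [MulAction.IsPretransitive G X] {c : G} {g : ℕ}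

open Classical in
/-- the odd function of the pair `z`, `c z` of blocks -/
private noncomputable def wz (c : G) {K : Subgroup G} (z : G ⧸ K) (y : G ⧸ K) : ℚ :=
  (if y = z then 1 else 0) - (if y = c • z then 1 else 0)

private theorem cc (hA : Act G X c g) {K : Subgroup G} (z : G ⧸ K) : c • c • z = z := by
  rw [smul_smul, hA.sq, one_smul]

private theorem c_ne (hA : Act G X c g) {K : Subgroup G} (hc : c ∉ K) (z : G ⧸ K) :
    c • z ≠ z := by
  induction z using QuotientGroup.induction_on with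
  | H σ =>
    intro h
    rw [MulAction.Quotient.smul_coe, QuotientGroup.eq, smul_eq_mul] at h
    apply hc
    rw [hA.comm σ, mul_inv_rev] at h
    have h1 : c⁻¹ * σ⁻¹ * σ = c⁻¹ := by group
    rw [h1] at h
    exact K.inv_mem_iff.mp h

private theorem wz_mem (hA : Act G X c g) (x0 : X) {K : Subgroup G} {β : X → G ⧸ K}
    (hβ : ∀ σ : G, β (σ • x0) = (σ : G ⧸ K)) (z : G ⧸ K) :
    (fun x => wz c z (β x)) ∈ VK c x0 K := by
  classical
  rw [VK_iff hA x0 K β hβ]
  refine ⟨wz c z, fun σ => ?_, fun x => rfl⟩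
  have h0 : ((c * σ : G) : G ⧸ K) = c • (σ : G ⧸ K) := rfl
  have h1 : ((c * σ : G) : G ⧸ K) = z ↔ (σ : G ⧸ K) = c • z := by
    rw [h0]
    constructor
    · intro h
      rw [← h, cc hA]
    · intro h
      rw [h, cc hA]
  have h2 : ((c * σ : G) : G ⧸ K) = c • z ↔ (σ : G ⧸ K) = z := by
    rw [h0]
    constructor
    · intro h
      rw [← cc hA (σ : G ⧸ K), h, cc hA]
    · intro h
      rw [h]
  have e1 : (if ((c * σ : G) : G ⧸ K) = z then (1 : ℚ) else 0) =
      if (σ : G ⧸ K) = c • z then 1 else 0 := if_congr h1 rfl rfl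
  have e2 : (if ((c * σ : G) : G ⧸ K) = c • z then (1 : ℚ) else 0) =
      if (σ : G ⧸ K) = z then 1 else 0 := if_congr h2 rfl rfl
  unfold wz
  rw [e1, e2]
  ring

private theorem wz_self (hA : Act G X c g) {K : Subgroup G} (hc : c ∉ K) (z : G ⧸ K) :
    wz c z z = 1 := by
  unfold wz
  rw [if_pos rfl, if_neg (c_ne hA hc z).symm, sub_zero]

private theorem wz_other {K : Subgroup G} {z y : G ⧸ K} (h1 : y ≠ z) (h2 : y ≠ c • z) :
    wz c z y = 0 := by
  unfold wz
  rw [if_neg h1, if_neg h2, sub_zero]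

private theorem exists_val {x0 : X} {K : Subgroup G} {β : X → G ⧸ K}
    (hβ : ∀ σ : G, β (σ • x0) = (σ : G ⧸ K)) (z : G ⧸ K) : ∃ x, β x = z := by
  induction z using QuotientGroup.induction_on with
  | H σ => exact ⟨σ • x0, hβ σ⟩

private theorem two_le (V : Submodule ℚ (X → ℚ)) {v w : X → ℚ} (hv : v ∈ V) (hw : w ∈ V)
    (h : ∀ s t : ℚ, s • v + t • w = 0 → s = 0 ∧ t = 0) : 2 ≤ finrank ℚ V := by
  have h1 : LinearIndependent ℚ ![(⟨v, hv⟩ : V), ⟨w, hw⟩] := by
    rw [LinearIndependent.pair_iff]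
    intro s t hst
    refine h s t ?_
    have := congrArg Subtype.val hst
    simpa using this
  have h2 := h1.fintype_card_le_finrank
  simpa using h2

/-- RECIPE (for all three): explicit linearly independent functions: for a block `z` the function
`1` on `z`, `-1` on `c z`, `0` elsewhere (`VK_iff`). For `VS`: `K' x0` consists of three blocks `z1`, `z2`,
`z3`; the functions of `z1` minus that of `z2`, and `z1` minus `z3`. -/
theorem finrank_quad (hA : Act G X c g) (x0 : X) (K : Subgroup G) (hK : K ∈ Quad c x0) :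
    1 ≤ finrank ℚ (VK c x0 K) := by
  obtain ⟨hst, -, hc⟩ := hK
  obtain ⟨β, hβ, -⟩ := exists_blk x0 K hst
  rw [Submodule.one_le_finrank_iff]
  intro h
  have h1 := wz_mem hA x0 hβ ((1 : G) : G ⧸ K)
  rw [h, Submodule.mem_bot] at h1
  obtain ⟨x, hx⟩ := exists_val hβ ((1 : G) : G ⧸ K)
  have h2 := congrFun h1 x
  simp only [hx, Pi.zero_apply] at h2
  rw [wz_self hA hc] at h2
  exact one_ne_zero h2

theorem finrank_quart (hA : Act G X c g) (x0 : X) (K : Subgroup G)
    (hK : MulAction.stabilizer G x0 ≤ K) (hc : c ∉ K) (h4 : K.index = 4) :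
    2 ≤ finrank ℚ (VK c x0 K) := by
  classical
  obtain ⟨β, hβ, -⟩ := exists_blk x0 K hK
  obtain ⟨z1, hz1⟩ : ∃ z : G ⧸ K, z = ((1 : G) : G ⧸ K) := ⟨_, rfl⟩
  have hcard : Fintype.card (G ⧸ K) = 4 := by
    rw [← h4, Subgroup.index_eq_card, Nat.card_eq_fintype_card]
  obtain ⟨z2, hz2⟩ : ∃ z : G ⧸ K, z ∉ ({z1, c • z1} : Finset (G ⧸ K)) := by
    by_contra hcon
    push Not at hcon
    have h1 : (univ : Finset (G ⧸ K)).card ≤ ({z1, c • z1} : Finset (G ⧸ K)).card :=
      card_le_card fun z _ => hcon z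
    rw [card_univ, hcard] at h1
    have h2 : ({z1, c • z1} : Finset (G ⧸ K)).card ≤ 2 := card_le_two
    omega
  rw [mem_insert, mem_singleton, not_or] at hz2
  have h12 : z1 ≠ c • z2 := fun h => hz2.2 (by rw [h, cc hA])
  obtain ⟨x1, hx1⟩ := exists_val hβ z1
  obtain ⟨x2, hx2⟩ := exists_val hβ z2
  refine two_le _ (wz_mem hA x0 hβ z1) (wz_mem hA x0 hβ z2) fun s t hst => ?_
  have e1 := congrFun hst x1
  have e2 := congrFun hst x2
  simp only [Pi.add_apply, Pi.smul_apply, smul_eq_mul, hx1, hx2, Pi.zero_apply, wz_self hA hc,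
    wz_other (c := c) (Ne.symm hz2.1) h12, wz_other (c := c) hz2.1 hz2.2] at e1 e2
  constructor <;> linarith

theorem finrank_sext (hA : Act G X c g) (x0 : X) (K K' : Subgroup G)
    (hK : MulAction.stabilizer G x0 ≤ K) (h6 : K.index = 6) (hK' : K' ∈ Quad c x0) (hKK : K ≤ K') :
    2 ≤ finrank ℚ (VS c x0 K K') := by
  classical
  obtain ⟨hst', h2', hc'⟩ := hK'
  have hc : c ∉ K := fun h => hc' (hKK h)
  obtain ⟨β, hβ, hcardβ⟩ := exists_blk x0 K hK
  have hcard : Fintype.card (G ⧸ K) = 6 := by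
    rw [← h6, Subgroup.index_eq_card, Nat.card_eq_fintype_card]
  -- the blocks in `K'`
  set S : Finset (G ⧸ K) := univ.filter fun z => ∃ k ∈ K', (k : G ⧸ K) = z with hS
  have hmemS : ∀ σ : G, (σ : G ⧸ K) ∈ S ↔ σ ∈ K' := by
    intro σ
    rw [hS, mem_filter]
    constructor
    · rintro ⟨-, k, hk, hkσ⟩
      rw [QuotientGroup.eq] at hkσ
      have := K'.mul_mem hk (hKK hkσ)
      simpa using this
    · intro hσ
      exact ⟨mem_univ _, σ, hσ, rfl⟩
  have hcS : ∀ z : G ⧸ K, c • z ∈ S ↔ z ∉ S := by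
    intro z
    induction z using QuotientGroup.induction_on with
    | H σ =>
      rw [MulAction.Quotient.smul_coe, smul_eq_mul, hmemS, hmemS,
        Subgroup.mul_mem_iff_of_index_two h2']
      constructor
      · exact fun h hσ => hc' (h.mpr hσ)
      · exact fun h => ⟨fun h1 => absurd h1 hc', fun h1 => absurd h1 h⟩
  have hS3 : S.card = 3 := by
    have h1 : (univ.filter fun z => z ∉ S).card = S.card := by
      refine card_nbij' (fun z => c • z) (fun z => c • z) ?_ ?_ ?_ ?_
      · intro z hz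
        rw [mem_coe, mem_filter] at hz
        exact (hcS z).mpr hz.2
      · intro z hz
        rw [mem_coe, mem_filter]
        refine ⟨mem_univ _, fun h => ?_⟩
        exact (hcS z).mp h hz
      · intro z _
        exact cc hA z
      · intro z _
        exact cc hA z
    have h2 := card_filter_add_card_filter_not (s := (univ : Finset (G ⧸ K))) (fun z => z ∈ S)
    rw [card_univ, hcard, h1, filter_mem_eq_inter, univ_inter] at h2
    omega
  obtain ⟨z1, z2, z3, h12, h13, h23, hSeq⟩ := card_eq_three.mp hS3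
  have m1 : z1 ∈ S := by rw [hSeq]; simp
  have m2 : z2 ∈ S := by rw [hSeq]; simp
  have m3 : z3 ∈ S := by rw [hSeq]; simp
  have hne : ∀ z ∈ S, ∀ y ∈ S, z ≠ c • y := by
    intro z hz y hy h
    rw [h] at hz
    exact (hcS y).mp hz hy
  -- the sum over `K' x0`
  have hbl : ∀ x, x ∈ bl K' x0 ↔ β x ∈ S := by
    intro x
    obtain ⟨σ, rfl⟩ := MulAction.exists_smul_eq G x0 x
    rw [hβ, hmemS]
    simp only [bl, mem_filter, mem_univ, true_and]
    constructor
    · rintro ⟨k, hk, hkσ⟩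
      have h1 : k⁻¹ * σ ∈ MulAction.stabilizer G x0 := by
        rw [MulAction.mem_stabilizer_iff, mul_smul, ← hkσ, inv_smul_smul]
      have := K'.mul_mem hk (hst' h1)
      simpa using this
    · intro hσ
      exact ⟨σ, hσ, rfl⟩
  have hsum : ∀ z ∈ S, (∑ x ∈ bl K' x0, wz c z (β x)) * 6 = Fintype.card X := by
    intro z hz
    have h1 : ∑ x ∈ bl K' x0, wz c z (β x) = ∑ x ∈ univ.filter (fun x => β x = z), (1 : ℚ) := by
      rw [← sum_filter_add_sum_filter_not (bl K' x0) (fun x => β x = z)]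
      have h2 : ∑ x ∈ (bl K' x0).filter (fun x => ¬ β x = z), wz c z (β x) = 0 := by
        refine sum_eq_zero fun x hx => ?_
        rw [mem_filter, hbl] at hx
        exact wz_other hx.2 (hne _ hx.1 _ hz)
      rw [h2, add_zero]
      have h3 : (bl K' x0).filter (fun x => β x = z) = univ.filter (fun x => β x = z) := by
        ext x
        rw [mem_filter, mem_filter, hbl]
        constructor
        · exact fun h => ⟨mem_univ _, h.2⟩
        · exact fun h => ⟨h.2 ▸ hz, h.2⟩
      rw [h3]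
      refine sum_congr rfl fun x hx => ?_
      rw [(mem_filter.mp hx).2, wz_self hA hc]
    rw [h1, sum_const, nsmul_eq_mul, mul_one]
    have h4 := hcardβ z
    rw [h6] at h4
    rw [← h4]
    push_cast
    convert rfl
  have hmem : ∀ y ∈ S, ∀ z ∈ S, (fun x => wz c y (β x)) - (fun x => wz c z (β x)) ∈
      VS c x0 K K' := by
    intro y hy z hz
    rw [mem_VS]
    refine ⟨sub_mem (wz_mem hA x0 hβ y) (wz_mem hA x0 hβ z), ?_⟩
    simp only [Pi.sub_apply, sum_sub_distrib]
    have h1 := hsum y hy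
    have h2 := hsum z hz
    linarith
  obtain ⟨x2, hx2⟩ := exists_val hβ z2
  obtain ⟨x3, hx3⟩ := exists_val hβ z3
  refine two_le _ (hmem z1 m1 z2 m2) (hmem z1 m1 z3 m3) fun s t hst => ?_
  have e2 := congrFun hst x2
  have e3 := congrFun hst x3
  simp only [Pi.add_apply, Pi.smul_apply, Pi.sub_apply, smul_eq_mul, hx2, hx3, Pi.zero_apply,
    wz_self hA hc, wz_other (c := c) (Ne.symm h12) (hne _ m2 _ m1),
    wz_other (c := c) (Ne.symm h13) (hne _ m3 _ m1), wz_other (c := c) h23 (hne _ m2 _ m3),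
    wz_other (c := c) (Ne.symm h23) (hne _ m3 _ m2)] at e2 e3
  constructor <;> linarith

end Pool.Agent.Lib.MP_938ce2_ag_L3
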