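import Pool.Agent.Lib.MP_938ce2_ag_L3.B1

/-!
Row B6: the spaces of different subfields are independent.
-/

set_option autoImplicit false
set_option linter.unusedSectionVars false

namespace Pool.Agent.Lib.MP_938ce2_ag_L3

open Finset Module
open Pool.Agent.Lib.MP_938ce2_ag_h67 (sg)
open Pool.Agent.Lib.MP_938ce2_ag_h60 (CMType GeneratedByDivisors Nondeg)
open Pool.Agent.Lib.MP_938ce2_ag_u2 (Act)

variable {G X : Type} [Group G] [Fintype G] [MulAction G X] [Fintype X] [DecidableEq X]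
  [MulAction.IsPretransitive G X] {c : G} {g : ℕ}

/-- `v ∈ VK K1 ⊓ VK K2` is invariant under the subgroup generated by `K1` and `K2` -/
theorem VK_sup (x0 : X) (K1 K2 : Subgroup G) : VK c x0 K1 ⊓ VK c x0 K2 ≤ VK c x0 (K1 ⊔ K2) := by
  intro v hv
  obtain ⟨h1, h2⟩ := Submodule.mem_inf.mp hv
  rw [mem_VK] at h1 h2 ⊢
  let H : Subgroup G :=
    { carrier := {k | ∀ σ : G, v ((σ * k) • x0) = v (σ • x0)}
      one_mem' := fun σ => by rw [mul_one]
      mul_mem' := by
        intro a b ha hb σ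
        rw [← mul_assoc, hb, ha]
      inv_mem' := by
        intro a ha σ
        have h3 := ha (σ * a⁻¹)
        rw [inv_mul_cancel_right] at h3
        exact h3.symm }
  have h3 : K1 ⊔ K2 ≤ H := sup_le (fun k hk σ => h1.2 σ k hk) (fun k hk σ => h2.2 σ k hk)
  exact ⟨h1.1, fun σ k hk => h3 hk σ⟩

/-- `v (σ • x0) = v ((σ * c) • x0) = v (c • σ • x0) = - v (σ • x0)` -/
theorem VK_eq_bot (hA : Act G X c g) (x0 : X) (K : Subgroup G) (hc : c ∈ K) : VK c x0 K = ⊥ := by
  rw [eq_bot_iff]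
  intro v hv
  rw [mem_VK] at hv
  rw [Submodule.mem_bot]
  funext x
  obtain ⟨σ, rfl⟩ := MulAction.exists_smul_eq G x0 x
  have h1 := hv.2 σ c hc
  rw [← hA.comm, mul_smul, hv.1] at h1
  rw [Pi.zero_apply]
  linarith

/-- the index of a subgroup without `c` is even: `K` has index two in `K ⊔ zpowers c` -/
theorem even_index (hA : Act G X c g) (K : Subgroup G) (hc : c ∉ K) : Even K.index := by
  classical
  have h1 : (MulAction.toPerm c : Equiv.Perm (G ⧸ K)) ^ 2 = 1 := by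
    ext x
    rw [pow_two, Equiv.Perm.mul_apply, MulAction.toPerm_apply, MulAction.toPerm_apply,
      ← mul_smul, hA.sq, one_smul, Equiv.Perm.one_apply]
  have h2 := Equiv.Perm.two_dvd_card_support h1
  have h3 : (MulAction.toPerm c : Equiv.Perm (G ⧸ K)).support = univ := by
    rw [eq_univ_iff_forall]
    intro x
    rw [Equiv.Perm.mem_support, MulAction.toPerm_apply]
    obtain ⟨σ, rfl⟩ := QuotientGroup.mk_surjective x
    intro h4
    apply hc
    have h5 : ((c * σ : G) : G ⧸ K) = (σ : G ⧸ K) := h4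
    rw [eq_comm, QuotientGroup.eq, hA.comm, inv_mul_cancel_left] at h5
    exact h5
  rw [h3, card_univ] at h2
  rw [Subgroup.index, Nat.card_eq_fintype_card]
  exact even_iff_two_dvd.mpr h2

private lemma eq_of_index {K Q : Subgroup G} (hle : K ≤ Q) (h : Q.index = K.index) : K = Q := by
  have h1 := Subgroup.relIndex_mul_index hle
  have h2 : Q.index ≠ 0 := Subgroup.FiniteIndex.index_ne_zero
  rw [← h] at h1
  have h3 : K.relIndex Q = 1 := by
    have h4 : 0 < Q.index := Nat.pos_of_ne_zero h2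
    exact Nat.eq_of_mul_eq_mul_right h4 (by rw [h1, one_mul])
  exact le_antisymm hle (Subgroup.relIndex_eq_one.mp h3)

private lemma b6_mem_bl {K : Subgroup G} {x0 x : X} : x ∈ bl K x0 ↔ ∃ k ∈ K, k • x0 = x := by
  unfold bl
  simp only [mem_filter, mem_univ, true_and]

/-- RECIPE (for all three). Let `Q = K1 ⊔ K2`. If `c ∈ Q` use `VK_eq_bot`. Otherwise the index of `Q` is even
and divides that of `K1`; if it is equal to it then `Q = K1 = K2` (`Subgroup.relIndex`), contradiction;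
otherwise it is two. -/
theorem disj_quad (hA : Act G X c g) (x0 : X) {K1 K2 : Subgroup G} (h1 : K1 ∈ Quad c x0)
    (h2 : K2 ∈ Quad c x0) (hne : K1 ≠ K2) : VK c x0 K1 ⊓ VK c x0 K2 = ⊥ := by
  by_cases hc : c ∈ K1 ⊔ K2
  · exact eq_bot_iff.mpr ((VK_sup x0 K1 K2).trans (VK_eq_bot hA x0 _ hc).le)
  · exfalso
    have h3 := even_index hA _ hc
    have h4 := Subgroup.index_dvd_of_le (le_sup_left : K1 ≤ K1 ⊔ K2)
    rw [h1.2.1] at h4
    have h5 : (K1 ⊔ K2).index = 2 := by
      rcases (Nat.dvd_prime Nat.prime_two).mp h4 with h | h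
      · rw [h] at h3
        exact absurd h3 (by decide)
      · exact h
    exact hne ((eq_of_index le_sup_left (h5.trans h1.2.1.symm)).trans
      (eq_of_index le_sup_right (h5.trans h2.2.1.symm)).symm)

theorem disj_quart (hA : Act G X c g) (x0 : X) {K1 K2 : Subgroup G} (h1 : K1 ∈ Quart c x0)
    (h2 : K2 ∈ Quart c x0) (hne : K1 ≠ K2) : VK c x0 K1 ⊓ VK c x0 K2 = ⊥ := by
  by_cases hc : c ∈ K1 ⊔ K2
  · exact eq_bot_iff.mpr ((VK_sup x0 K1 K2).trans (VK_eq_bot hA x0 _ hc).le)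
  · exfalso
    have h3 := even_index hA _ hc
    have h4 := Subgroup.index_dvd_of_le (le_sup_left : K1 ≤ K1 ⊔ K2)
    rw [h1.2.1] at h4
    have h5 : (K1 ⊔ K2).index ≤ 4 := Nat.le_of_dvd (by norm_num) h4
    have h6 : (K1 ⊔ K2).index = 2 ∨ (K1 ⊔ K2).index = 4 := by
      generalize (K1 ⊔ K2).index = n at *
      interval_cases n <;> first | omega | (exfalso; revert h3; decide)
    rcases h6 with h | h
    · exact h1.2.2.2 (K1 ⊔ K2) ⟨h1.1.trans le_sup_left, h, hc⟩ le_sup_left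
    · exact hne ((eq_of_index le_sup_left (h.trans h1.2.1.symm)).trans
        (eq_of_index le_sup_right (h.trans h2.2.1.symm)).symm)

/-- Index two: `v = ± t` everywhere (`v` is constant on the two blocks `Q x0` and `c Q x0` of `Q`) and
the sum over `K' x0`, which consists of three blocks of `K1` with the same number `r` of elements, is
`(± 1 ± 1 ± 1) r t`, so `t = 0`. -/
theorem disj_sext (hA : Act G X c g) (x0 : X) {K1 K2 K1' K2' : Subgroup G}
    (hs1 : MulAction.stabilizer G x0 ≤ K1) (hs2 : MulAction.stabilizer G x0 ≤ K2)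
    (h1 : K1.index = 6) (h2 : K2.index = 6) (h1' : K1' ∈ Quad c x0) (h2' : K2' ∈ Quad c x0)
    (hK1 : K1 ≤ K1') (hK2 : K2 ≤ K2') (hne : K1 ≠ K2) : VS c x0 K1 K1' ⊓ VS c x0 K2 K2' = ⊥ := by
  rw [eq_bot_iff]
  intro v hv
  obtain ⟨hv1, hv2⟩ := Submodule.mem_inf.mp hv
  rw [mem_VS] at hv1 hv2
  have hv3 : v ∈ VK c x0 (K1 ⊔ K2) := VK_sup x0 K1 K2 (Submodule.mem_inf.mpr ⟨hv1.1, hv2.1⟩)
  by_cases hc : c ∈ K1 ⊔ K2
  · rw [VK_eq_bot hA x0 _ hc] at hv3
    exact hv3
  have h3 := even_index hA _ hc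
  have h4 := Subgroup.index_dvd_of_le (le_sup_left : K1 ≤ K1 ⊔ K2)
  rw [h1] at h4
  have h5 : (K1 ⊔ K2).index ≤ 6 := Nat.le_of_dvd (by norm_num) h4
  have h6 : (K1 ⊔ K2).index = 2 ∨ (K1 ⊔ K2).index = 6 := by
    generalize (K1 ⊔ K2).index = n at *
    interval_cases n <;> first | omega | (exfalso; revert h3; decide)
  rcases h6 with h | h
  swap
  · exact absurd ((eq_of_index le_sup_left (h.trans h1.symm)).trans
        (eq_of_index le_sup_right (h.trans h2.symm)).symm) hne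
  set Q := K1 ⊔ K2 with hQ
  have hQn : Q.Normal := Subgroup.normal_of_index_eq_two h
  have h7 : Q.relIndex K1' ∣ 2 := by
    rw [← h]
    exact Subgroup.relIndex_dvd_index_of_normal Q K1'
  have h8 : Q.relIndex K1' ∣ 3 := by
    have h9 := Subgroup.index_dvd_of_le (le_inf (le_sup_left : K1 ≤ Q) hK1)
    rw [← Subgroup.relIndex_mul_index (inf_le_right : Q ⊓ K1' ≤ K1'),
      Subgroup.inf_relIndex_right, h1'.2.1, h1] at h9
    exact (Nat.mul_dvd_mul_iff_right (by norm_num : 0 < 2)).mp (by simpa using h9)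
  have h9 : Q.relIndex K1' = 1 := by
    have := Nat.dvd_gcd h7 h8
    exact Nat.dvd_one.mp this
  have h10 : K1' = Q := eq_of_index (Subgroup.relIndex_eq_one.mp h9) (h.trans h1'.2.1.symm)
  rw [mem_VK] at hv3
  have h11 : ∀ k ∈ Q, v (k • x0) = v x0 := by
    intro k hk
    have := hv3.2 1 k hk
    rwa [one_mul, one_smul] at this
  have h12 : v x0 = 0 := by
    have h13 : ∀ x ∈ bl K1' x0, v x = v x0 := by
      intro x hx
      obtain ⟨k, hk, rfl⟩ := b6_mem_bl.mp hx
      exact h11 k (h10 ▸ hk)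
    have h14 := hv1.2
    rw [sum_congr rfl h13, sum_const, nsmul_eq_mul] at h14
    have h15 : x0 ∈ bl K1' x0 := b6_mem_bl.mpr ⟨1, one_mem _, one_smul _ _⟩
    have h16 : ((bl K1' x0).card : ℚ) ≠ 0 := by
      exact_mod_cast (card_pos.mpr ⟨x0, h15⟩).ne'
    exact (mul_eq_zero.mp h14).resolve_left h16
  rw [Submodule.mem_bot]
  funext x
  rw [Pi.zero_apply]
  obtain ⟨σ, rfl⟩ := MulAction.exists_smul_eq G x0 x
  by_cases hσ : σ ∈ Q
  · rw [h11 σ hσ, h12]
  · have h13 : c * σ ∈ Q := by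
      rw [Subgroup.mul_mem_iff_of_index_two h]
      exact ⟨fun h' => absurd h' hc, fun h' => absurd h' hσ⟩
    have h14 := h11 _ h13
    rw [mul_smul, hv3.1, h12] at h14
    linarith

end Pool.Agent.Lib.MP_938ce2_ag_L3
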