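import Pool.Agent.Lib.MP_938ce2_ag_L3.B3
import Pool.Agent.Lib.MP_938ce2_ag_L3.B5
import Pool.Agent.Lib.MP_938ce2_ag_L3.B6

/-!
Row B7: pairs of events.
-/

set_option autoImplicit false
set_option linter.unusedSectionVars false

namespace Pool.Agent.Lib.MP_938ce2_ag_L3

open Finset Module
open Pool.Agent.Lib.MP_938ce2_ag_h67 (sg)
open Pool.Agent.Lib.MP_938ce2_ag_h60 (CMType GeneratedByDivisors Nondeg)
open Pool.Agent.Lib.MP_938ce2_ag_u2 (Act)

variable {G X : Type} [Group G] [Fintype G] [MulAction G X] [Fintype X] [DecidableEq X]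
  [MulAction.IsPretransitive G X] {c : G} {g : ℕ}

private theorem exists_mul (hA : Act G X c g) (x0 : X) (K : Subgroup G)
    (hK : MulAction.stabilizer G x0 ≤ K) : ∃ r : ℕ, r * K.index = 2 * g := by
  classical
  obtain ⟨β, -, hβ⟩ := exists_blk x0 K hK
  refine ⟨_, (hβ ((1 : G) : G ⧸ K)).trans ?_⟩
  rw [← hA.card]

private theorem VK_mono (x0 : X) {K L : Subgroup G} (h : K ≤ L) : VK c x0 L ≤ VK c x0 K := by
  intro v hv
  rw [mem_VK] at hv ⊢
  exact ⟨hv.1, fun σ k hk => hv.2 σ k (h hk)⟩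

private theorem orthT_inter (V1 V2 : Submodule ℚ (X → ℚ)) :
    orthT c V1 ∩ orthT c V2 ⊆ orthT c (V1 ⊔ V2) := by
  intro Φ hΦ
  rw [Finset.mem_inter, mem_orthT, mem_orthT] at hΦ
  rw [mem_orthT]
  refine ⟨hΦ.1.1, fun v hv => ?_⟩
  obtain ⟨v1, h1, v2, h2, rfl⟩ := Submodule.mem_sup.1 hv
  have h3 := hΦ.1.2 v1 h1
  have h4 := hΦ.2.2 v2 h2
  simp only [Pi.add_apply, mul_add, Finset.sum_add_distrib]
  rw [h3, h4, add_zero]

/-- RECIPE. `K = K1 ⊓ K2`, `V1 ⊔ V2 ≤ VK K`, `finrank (V1 ⊔ V2) = finrank V1 + finrank V2 ≥ 2 d`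
(`Submodule.finrank_sup_add_finrank_inf_eq`), `K.index ≤ n ^ 2` (`Subgroup.index_inf_le`), `r = 2 g / K.index`
(`K.index` divides `2 g`: `exists_blk`), `r ≥ 2 g / n ^ 2`, and
`orthT V1 ∩ orthT V2 = orthT (V1 ⊔ V2)`; `orth_card_le`, `choose_mid_le`:
`|orth| ≤ 2 ^ g (1 / √ r) ^ (2 d) ≤ 2 ^ g (n ^ 2 / (2 g)) ^ d`. -/
theorem pair_bound (hA : Act G X c g) (x0 : X) (K1 K2 : Subgroup G)
    (hs1 : MulAction.stabilizer G x0 ≤ K1) (hs2 : MulAction.stabilizer G x0 ≤ K2) (hc : c ∉ K1)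
    (n d : ℕ) (h1 : K1.index ≤ n) (h2 : K2.index ≤ n) (V1 V2 : Submodule ℚ (X → ℚ))
    (hV1 : V1 ≤ VK c x0 K1) (hV2 : V2 ≤ VK c x0 K2) (hd1 : d ≤ finrank ℚ V1)
    (hd2 : d ≤ finrank ℚ V2) (hdis : V1 ⊓ V2 = ⊥) :
    ((orthT c V1 ∩ orthT c V2).card : ℝ) ≤ ((n : ℝ) ^ 2 / (2 * g)) ^ d * 2 ^ g := by
  have hsub : orthT c V1 ∩ orthT c V2 ⊆ orthT c (V1 ⊔ V2) := orthT_inter V1 V2
  have hcard : ((orthT c V1 ∩ orthT c V2).card : ℝ) ≤ ((orthT c (V1 ⊔ V2)).card : ℝ) :=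
    Nat.cast_le.2 (Finset.card_le_card hsub)
  have hg : 1 ≤ g := hA.pos
  have hsK : MulAction.stabilizer G x0 ≤ K1 ⊓ K2 := le_inf hs1 hs2
  obtain ⟨r, hr⟩ := exists_mul hA x0 (K1 ⊓ K2) hsK
  have hr1 : 1 ≤ r := by
    rcases Nat.eq_zero_or_pos r with h0 | h0
    · rw [h0, zero_mul] at hr
      omega
    · exact h0
  have hcK : c ∉ K1 ⊓ K2 := fun h => hc h.1
  have hU : V1 ⊔ V2 ≤ VK c x0 (K1 ⊓ K2) :=
    sup_le (hV1.trans (VK_mono x0 inf_le_left)) (hV2.trans (VK_mono x0 inf_le_right))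
  have hdim : finrank ℚ (V1 ⊔ V2 : Submodule ℚ (X → ℚ)) = finrank ℚ V1 + finrank ℚ V2 := by
    have h := Submodule.finrank_sup_add_finrank_inf_eq V1 V2
    rw [hdis, finrank_bot, add_zero] at h
    exact h
  have hD : 2 * d ≤ finrank ℚ (V1 ⊔ V2 : Submodule ℚ (X → ℚ)) := by omega
  have hmain := orth_card_le hA x0 (K1 ⊓ K2) hsK hcK (V1 ⊔ V2) hU r hr
  obtain ⟨D, hDe⟩ : ∃ D, D = finrank ℚ (V1 ⊔ V2 : Submodule ℚ (X → ℚ)) := ⟨_, rfl⟩
  rw [← hDe] at hmain hD
  have hidx : (K1 ⊓ K2).index ≤ n * n :=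
    (Subgroup.index_inf_le (H := K1) (K := K2)).trans (Nat.mul_le_mul h1 h2)
  have hr0 : (0 : ℝ) < r := by exact_mod_cast hr1
  have hsr : (1 : ℝ) ≤ √r := by
    rw [Real.one_le_sqrt]
    exact_mod_cast hr1
  have hsr0 : (0 : ℝ) < √r := lt_of_lt_of_le one_pos hsr
  have hcm := choose_mid_le r hr1
  -- the bound for the orthogonal types
  have hb1 : ((orthT c (V1 ⊔ V2)).card : ℝ) * (2 ^ r) ^ D ≤ 2 ^ g * (2 ^ r / √r) ^ D := by
    have h3 : ((orthT c (V1 ⊔ V2)).card : ℝ) * 2 ^ (r * D) ≤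
        2 ^ g * ((r.choose (r / 2) : ℕ) : ℝ) ^ D := by exact_mod_cast hmain
    rw [pow_mul] at h3
    exact h3.trans (mul_le_mul_of_nonneg_left (pow_le_pow_left₀ (by positivity) hcm D)
      (by positivity))
  have hb2 : ((orthT c (V1 ⊔ V2)).card : ℝ) ≤ 2 ^ g * (1 / √r) ^ D := by
    have h3 : (2 : ℝ) ^ g * (2 ^ r / √r) ^ D = (2 ^ g * (1 / √r) ^ D) * (2 ^ r) ^ D := by
      rw [div_pow, div_pow, one_pow]
      ring
    rw [h3] at hb1
    exact le_of_mul_le_mul_right hb1 (by positivity)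
  have hb3 : (1 / √(r : ℝ)) ^ D ≤ ((n : ℝ) ^ 2 / (2 * g)) ^ d := by
    have h3 : (1 / √(r : ℝ)) ^ D ≤ (1 / √(r : ℝ)) ^ (2 * d) :=
      pow_le_pow_of_le_one (by positivity) (by rw [div_le_one hsr0]; exact hsr) hD
    refine h3.trans ?_
    rw [pow_mul]
    refine pow_le_pow_left₀ (by positivity) ?_ d
    rw [div_pow, one_pow, Real.sq_sqrt hr0.le, div_le_div_iff₀ hr0 (by positivity), one_mul]
    have h4 : (r : ℝ) * ((K1 ⊓ K2).index : ℝ) = 2 * g := by exact_mod_cast hr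
    have h5 : ((K1 ⊓ K2).index : ℝ) ≤ (n : ℝ) * n := by exact_mod_cast hidx
    rw [← h4]
    nlinarith
  refine hcard.trans (hb2.trans ?_)
  rw [mul_comm]
  exact mul_le_mul_of_nonneg_right hb3 (by positivity)

/-- two subgroups of the same index, one in the other -/
private theorem eq_of_le_index {K1 K2 : Subgroup G} (h : K1.index = K2.index) (hle : K2 ≤ K1) :
    K1 = K2 := by
  refine le_antisymm ?_ hle
  have h1 := Subgroup.relIndex_mul_index hle
  rw [h] at h1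
  have h2 : K2.index ≠ 0 := Subgroup.index_ne_zero_of_finite
  have h3 : K2.relIndex K1 = 1 := by
    rcases Nat.eq_zero_or_pos K2.index with h4 | h4
    · exact absurd h4 h2
    · have h5 : K2.relIndex K1 * K2.index = 1 * K2.index := by rw [h1, one_mul]
      exact Nat.eq_of_mul_eq_mul_right h4 h5
  exact Subgroup.relIndex_eq_one.1 h3

private theorem inf_index (K1 K2 : Subgroup G) :
    K1.relIndex K2 * K2.index = (K1 ⊓ K2).index := by
  rw [← Subgroup.inf_relIndex_right]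
  exact Subgroup.relIndex_mul_index inf_le_right

/-- two different imaginary quadratic subfields: `K1 ⊓ K2` has index four, `4 ∣ 2 g` -/
theorem even_of_quad (hA : Act G X c g) (x0 : X) {K1 K2 : Subgroup G} (h1 : K1 ∈ Quad c x0)
    (h2 : K2 ∈ Quad c x0) (hne : K1 ≠ K2) : Even g := by
  obtain ⟨hs1, hi1, -⟩ := h1
  obtain ⟨hs2, hi2, -⟩ := h2
  obtain ⟨r, hr⟩ := exists_mul hA x0 (K1 ⊓ K2) (le_inf hs1 hs2)
  have h3 := inf_index K1 K2
  have h4 : K1.relIndex K2 ≠ 1 := by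
    intro h4
    exact hne (eq_of_le_index (hi1.trans hi2.symm) (Subgroup.relIndex_eq_one.1 h4))
  have h5 : (K1 ⊓ K2).index ≤ K1.index * K2.index := Subgroup.index_inf_le
  have h6 : (K1 ⊓ K2).index ≠ 0 := Subgroup.index_ne_zero_of_finite
  rw [hi1, hi2] at h5
  rw [hi2] at h3
  have h7 : (K1 ⊓ K2).index = 4 := by omega
  rw [h7] at hr
  exact ⟨r, by omega⟩

/-- the subgroup generated by `K` and `c` -/
private def adjc (hA : Act G X c g) (K : Subgroup G) : Subgroup G where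
  carrier := {x | x ∈ K ∨ c * x ∈ K}
  mul_mem' := by
    have hcc : ∀ x y : G, (c * x) * (c * y) = x * y := by
      intro x y
      calc (c * x) * (c * y) = (c * x) * (y * c) := by rw [hA.comm y]
        _ = (c * (x * y)) * c := by group
        _ = (x * y * c) * c := by rw [hA.comm (x * y)]
        _ = x * y * (c * c) := by group
        _ = x * y := by rw [hA.sq, mul_one]
    have hcr : ∀ x y : G, x * (c * y) = c * (x * y) := by
      intro x y
      rw [← mul_assoc, ← hA.comm x, mul_assoc]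
    rintro x y (hx | hx) (hy | hy)
    · exact Or.inl (K.mul_mem hx hy)
    · right
      rw [← hcr]
      exact K.mul_mem hx hy
    · right
      rw [← mul_assoc]
      exact K.mul_mem hx hy
    · left
      rw [← hcc]
      exact K.mul_mem hx hy
  one_mem' := Or.inl K.one_mem
  inv_mem' := by
    rintro x (hx | hx)
    · exact Or.inl (K.inv_mem hx)
    · right
      have h1 : c * x⁻¹ = (c * x)⁻¹ := by
        have h2 : c⁻¹ = c := inv_eq_of_mul_eq_one_left hA.sq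
        rw [mul_inv_rev, h2]
        exact hA.comm x⁻¹
      rw [h1]
      exact K.inv_mem hx

private theorem mem_adjc (hA : Act G X c g) {K : Subgroup G} {x : G} :
    x ∈ adjc hA K ↔ x ∈ K ∨ c * x ∈ K := Iff.rfl

private theorem relIndex_adjc (hA : Act G X c g) {K N : Subgroup G} (hN : N ≤ adjc hA K) :
    K.relIndex N = 1 ∨ K.relIndex N = 2 := by
  by_cases h : N ≤ K
  · exact Or.inl (Subgroup.relIndex_eq_one.2 h)
  · right
    rw [SetLike.not_le_iff_exists] at h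
    obtain ⟨a, haN, haK⟩ := h
    rw [Subgroup.relIndex_eq_two_iff_exists_notMem_and]
    refine ⟨a, haN, haK, fun b hb => ?_⟩
    rcases (mem_adjc hA).1 (hN hb) with h1 | h1
    · exact Or.inr h1
    · left
      have h2 : c * a ∈ K := ((mem_adjc hA).1 (hN haN)).resolve_left haK
      have h3 : (c * b) * (c * a) = b * a := by
        calc (c * b) * (c * a) = (c * b) * (a * c) := by rw [hA.comm a]
          _ = (c * (b * a)) * c := by group
          _ = (b * a * c) * c := by rw [hA.comm (b * a)]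
          _ = b * a * (c * c) := by group
          _ = b * a := by rw [hA.sq, mul_one]
      rw [← h3]
      exact K.mul_mem h1 h2

/-- two different subgroups of index four: `Ki` has index two in `Mi = Ki ⊔ zpowers c`, which has index two
in `G`; `K1 ⊓ M2` has index `≤ 2` in `K1` and `K1 ⊓ K2` index `≤ 2` in `K1 ⊓ M2`. So `K1 ⊓ K2` has index
`8` or `16` in `G`. -/
theorem four_dvd_of_quart (hA : Act G X c g) (x0 : X) {K1 K2 : Subgroup G}
    (hs1 : MulAction.stabilizer G x0 ≤ K1) (hs2 : MulAction.stabilizer G x0 ≤ K2)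
    (hc1 : c ∉ K1) (hc2 : c ∉ K2) (h1 : K1.index = 4) (h2 : K2.index = 4) (hne : K1 ≠ K2) :
    4 ∣ g := by
  obtain ⟨r, hr⟩ := exists_mul hA x0 (K1 ⊓ K2) (le_inf hs1 hs2)
  have h3 := inf_index K1 K2
  rw [h2] at h3
  have h4 : K1.relIndex K2 ≠ 1 := by
    intro h4
    exact hne (eq_of_le_index (h1.trans h2.symm) (Subgroup.relIndex_eq_one.1 h4))
  -- the group `M = K1 ∪ c K1`
  have hle : K1 ≤ adjc hA K1 := fun x hx => (mem_adjc hA).2 (Or.inl hx)
  have hcM : c ∈ adjc hA K1 := (mem_adjc hA).2 (Or.inr (by rw [hA.sq]; exact K1.one_mem))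
  have h5 : K1.relIndex (adjc hA K1) = 2 := by
    rcases relIndex_adjc hA (le_refl (adjc hA K1)) with h5 | h5
    · exact absurd (Subgroup.relIndex_eq_one.1 h5 hcM) hc1
    · exact h5
  have h6 : (adjc hA K1).index = 2 := by
    have h7 := Subgroup.relIndex_mul_index hle
    rw [h5, h1] at h7
    omega
  have hnorm : (adjc hA K1).Normal := Subgroup.normal_of_index_eq_two h6
  have h7 : (adjc hA K1).relIndex K2 ∣ 2 := by
    have := Subgroup.relIndex_dvd_index_of_normal (adjc hA K1) K2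
    rwa [h6] at this
  have h8 : (adjc hA K1).relIndex K2 = 1 ∨ (adjc hA K1).relIndex K2 = 2 :=
    (Nat.dvd_prime Nat.prime_two).1 h7
  have h9 : K1.relIndex (adjc hA K1 ⊓ K2) = 1 ∨ K1.relIndex (adjc hA K1 ⊓ K2) = 2 :=
    relIndex_adjc hA inf_le_left
  have h10 : K1.relIndex (adjc hA K1 ⊓ K2) * (adjc hA K1).relIndex K2 = K1.relIndex K2 := by
    have h11 := Subgroup.relIndex_mul_relIndex (K1 ⊓ K2) (adjc hA K1 ⊓ K2) K2
      (inf_le_inf_right K2 hle) inf_le_right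
    rw [Subgroup.inf_relIndex_right, Subgroup.inf_relIndex_right] at h11
    rw [← h11]
    congr 1
    have h12 : K1 ⊓ K2 = K1 ⊓ (adjc hA K1 ⊓ K2) := by
      rw [← inf_assoc, inf_eq_left.2 hle]
    rw [h12, Subgroup.inf_relIndex_right]
  have h11 : K1.relIndex K2 = 2 ∨ K1.relIndex K2 = 4 := by
    rw [← h10] at h4 ⊢
    rcases h8 with h8 | h8 <;> rcases h9 with h9 | h9 <;> rw [h8, h9] at h4 ⊢ <;> omega
  rcases h11 with h11 | h11
  · rw [h11] at h3
    rw [← h3] at hr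
    exact ⟨r, by omega⟩
  · rw [h11] at h3
    rw [← h3] at hr
    exact ⟨2 * r, by omega⟩

end Pool.Agent.Lib.MP_938ce2_ag_L3
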