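import Pool.Agent.Lib.MP_938ce2_ag_L3.B1

/-!
Row B8: the events are degenerate types.
-/

set_option autoImplicit false
set_option linter.unusedSectionVars false

namespace Pool.Agent.Lib.MP_938ce2_ag_L3

open Finset Module
open Pool.Agent.Lib.MP_938ce2_ag_h67 (sg)
open Pool.Agent.Lib.MP_938ce2_ag_h60 (CMType GeneratedByDivisors Nondeg)
open Pool.Agent.Lib.MP_938ce2_ag_u2 (Act)

variable {G X : Type} [Group G] [Fintype G] [MulAction G X] [Fintype X] [DecidableEq X]
  [MulAction.IsPretransitive G X] {c : G} {g : ℕ}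

/-- RECIPE. Take `0 ≠ v ∈ V`, multiply by a common denominator (`IsLocalization.exist_integer_multiples` or
`∏ x, (v x).den`) to get an integral `h ≠ 0`, odd; `∑ φ ∈ Φ, h (σ • φ) = 0` from the orthogonality to
`x ↦ v (σ • x)` and `h60.sum_type`: `∑ x, sg Φ x v x = 2 ∑ x ∈ Φ, v x` for odd `v`. -/
theorem not_nondeg_of_orth (hA : Act G X c g) {V : Submodule ℚ (X → ℚ)} {Φ : Finset X}
    (hodd : ∀ v ∈ V, ∀ x, v (c • x) = - v x) (hinv : ∀ v ∈ V, ∀ σ : G, (fun x => v (σ • x)) ∈ V)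
    (hne : V ≠ ⊥) (hΦ : Φ ∈ orthT c V) : ¬ Nondeg c Φ := by
  intro hnd
  obtain ⟨hcm, horth⟩ := mem_orthT.1 hΦ
  obtain ⟨v, hv, hv0⟩ := Submodule.exists_mem_ne_zero_of_ne_bot hne
  obtain ⟨y, hy⟩ : ∃ y, v y ≠ 0 := by
    by_contra h
    push Not at h
    exact hv0 (funext h)
  -- a common denominator
  obtain ⟨N, hN⟩ : ∃ N : ℕ, N = ∏ x, (v x).den := ⟨_, rfl⟩
  have hN0 : (N : ℚ) ≠ 0 := by
    rw [hN]
    exact_mod_cast prod_ne_zero_iff.2 fun x _ => (v x).den_nz
  have hex : ∀ x, ∃ z : ℤ, (z : ℚ) = N * v x := by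
    intro x
    obtain ⟨k, hk⟩ : (v x).den ∣ N := by
      rw [hN]
      exact dvd_prod_of_mem _ (mem_univ x)
    refine ⟨k * (v x).num, ?_⟩
    rw [hk]
    push_cast
    have h1 : ((v x).den : ℚ) * v x = (v x).num := by
      rw [mul_comm]
      exact Rat.mul_den_eq_num (v x)
    rw [← h1]
    ring
  choose h hh using hex
  have h0 : h y = 0 := by
    refine hnd h (fun x => ?_) (fun σ => ?_) y
    · have h1 : ((h (c • x) : ℤ) : ℚ) = ((- h x : ℤ) : ℚ) := by
        push_cast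
        rw [hh, hh, hodd v hv]
        ring
      exact_mod_cast h1
    · have h1 : ∑ φ ∈ Φ, v (σ • φ) = 0 := by
        have h2 := horth _ (hinv v hv σ)
        have h3 := hA.sum_type hcm (fun x => (sg Φ x : ℚ) * v (σ • x))
        rw [h2] at h3
        have h4 : ∑ x ∈ Φ, (sg Φ x : ℚ) * v (σ • x) = ∑ x ∈ Φ, v (σ • x) := by
          refine sum_congr rfl fun x hx => ?_
          rw [Pool.Agent.Lib.MP_938ce2_ag_h67.sg, if_pos hx]
          simp
        have h5 : ∑ x ∈ Φ, (sg Φ (c • x) : ℚ) * v (σ • c • x) = ∑ x ∈ Φ, v (σ • x) := by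
          refine sum_congr rfl fun x hx => ?_
          have h6 : σ • c • x = c • σ • x := by
            rw [smul_smul, smul_smul, hA.comm]
          rw [Pool.Agent.Lib.MP_938ce2_ag_h67.sg, if_neg ((hcm x).1 hx), h6, hodd v hv]
          simp
        rw [h4, h5] at h3
        linarith
      have h2 : ((∑ φ ∈ Φ, h (σ • φ) : ℤ) : ℚ) = 0 := by
        push_cast
        rw [sum_congr rfl fun x _ => hh (σ • x), ← mul_sum, h1, mul_zero]
      exact_mod_cast h2
  have h1 := hh y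
  rw [h0] at h1
  simp only [Int.cast_zero, zero_eq_mul] at h1
  exact h1.elim hN0 hy

theorem VK_inv (hA : Act G X c g) (x0 : X) (K : Subgroup G) :
    ∀ v ∈ VK c x0 K, ∀ σ : G, (fun x => v (σ • x)) ∈ VK c x0 K := by
  rintro v ⟨h1, h2⟩ σ
  refine ⟨fun x => ?_, fun τ k hk => ?_⟩
  · have h3 : σ • c • x = c • σ • x := by
      rw [smul_smul, smul_smul, hA.comm]
    change v (σ • c • x) = - v (σ • x)
    rw [h3, h1]
  · change v (σ • (τ * k) • x0) = v (σ • τ • x0)
    rw [smul_smul, smul_smul, ← mul_assoc, h2 _ k hk]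

/-- `K'` is normal (index two), so `σ K' x0` is `K' x0` or its complement `c K' x0` -/
theorem VS_inv (hA : Act G X c g) (x0 : X) (K K' : Subgroup G) (hK' : K' ∈ Quad c x0) :
    ∀ v ∈ VS c x0 K K', ∀ σ : G, (fun x => v (σ • x)) ∈ VS c x0 K K' := by
  classical
  rintro v ⟨h1, h2⟩ σ
  refine ⟨VK_inv hA x0 K v h1 σ, ?_⟩
  obtain ⟨hst, hidx, hcK⟩ := hK'
  have hnorm : K'.Normal := Subgroup.normal_of_index_eq_two hidx
  have hmem : ∀ x, x ∈ bl K' x0 ↔ ∃ k ∈ K', k • x0 = x := by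
    intro x
    unfold bl
    simp only [mem_filter, mem_univ, true_and]
  -- the block of `τ • x0`
  have hblk : ∀ τ : G, τ • x0 ∈ bl K' x0 ↔ τ ∈ K' := by
    intro τ
    rw [hmem]
    constructor
    · rintro ⟨k, hk, h⟩
      have h3 : k⁻¹ * τ ∈ MulAction.stabilizer G x0 := by
        rw [MulAction.mem_stabilizer_iff, mul_smul, ← h, inv_smul_smul]
      have h4 := K'.mul_mem hk (hst h3)
      rwa [mul_inv_cancel_left] at h4
    · intro h
      exact ⟨τ, h, rfl⟩
  by_cases hσ : σ ∈ K'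
  · have h3 : ∑ x ∈ bl K' x0, v (σ • x) = ∑ x ∈ bl K' x0, v x := by
      refine sum_nbij' (fun x => σ • x) (fun x => σ⁻¹ • x) ?_ ?_ ?_ ?_ ?_
      · intro x hx
        obtain ⟨k, hk, rfl⟩ := (hmem x).1 hx
        rw [smul_smul, hblk]
        exact K'.mul_mem hσ hk
      · intro x hx
        obtain ⟨k, hk, rfl⟩ := (hmem x).1 hx
        rw [smul_smul, hblk]
        exact K'.mul_mem (K'.inv_mem hσ) hk
      · intro x _; exact inv_smul_smul σ x
      · intro x _; exact smul_inv_smul σ x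
      · intro x _; rfl
    change ∑ x ∈ bl K' x0, v (σ • x) = 0
    rw [h3, h2]
  · have hcs : c * σ ∈ K' := (Subgroup.mul_mem_iff_of_index_two hidx).2
      ⟨fun h => absurd h hcK, fun h => absurd h hσ⟩
    have h3 : ∑ x ∈ bl K' x0, v (σ • x) = ∑ x ∈ bl K' x0, - v x := by
      refine sum_nbij' (fun x => (c * σ) • x) (fun x => (c * σ)⁻¹ • x) ?_ ?_ ?_ ?_ ?_
      · intro x hx
        obtain ⟨k, hk, rfl⟩ := (hmem x).1 hx
        rw [smul_smul, hblk]
        exact K'.mul_mem hcs hk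
      · intro x hx
        obtain ⟨k, hk, rfl⟩ := (hmem x).1 hx
        rw [smul_smul, hblk]
        exact K'.mul_mem (K'.inv_mem hcs) hk
      · intro x _; exact inv_smul_smul _ x
      · intro x _; exact smul_inv_smul _ x
      · intro x _
        rw [mul_smul, h1.1, neg_neg]
    change ∑ x ∈ bl K' x0, v (σ • x) = 0
    rw [h3, sum_neg_distrib, h2, neg_zero]

end Pool.Agent.Lib.MP_938ce2_ag_L3
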