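import Pool.Agent.Lib.MP_938ce2_ag_L3.LD
import Pool.Agent.Lib.MP_938ce2_ag_h85.Lower

/-!
Row B9: primitive degenerate CM types have exotic Tate classes.
-/

set_option autoImplicit false
set_option linter.unusedSectionVars false

namespace Pool.Agent.Lib.MP_938ce2_ag_L3

open Finset Module
open Pool.Agent.Lib.MP_938ce2_ag_h67 (sg)
open Pool.Agent.Lib.MP_938ce2_ag_h60 (CMType GeneratedByDivisors Nondeg)
open Pool.Agent.Lib.MP_938ce2_ag_u2 (Act)

variable {G X : Type} [Group G] [Fintype G] [MulAction G X] [Fintype X] [DecidableEq X]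
  {c : G} {g : ℕ}

open Pool.Agent.Lib.MP_938ce2_ag_h60 (TateG tateG_mB sum_mult) in
open Pool.Agent.Lib.MP_938ce2_ag_h85 (mB mult) in
/-- the product of the weights of a monomial occurring in a Tate class of codimension one -/
private lemma prod_one (hA : Act G X c g) {Φ : Finset X} (hΦ : CMType c Φ) (hP : Prim G Φ)
    {I : Type} [LinearOrder I] [Fintype I] {π : I → X} (h : X → ℤ) (hodd : ∀ x, h (c • x) = - h x)
    {x : ExteriorAlgebra ℚ (I → ℚ)} (hx : TateG G ℚ π Φ 1 x) {s : Finset I}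
    (hs : (mB ℚ).repr x s ≠ 0) : ∏ p ∈ s, (2 : ℚ) ^ (h (π p)) = 1 := by
  have hco := hx.coord hs
  have hcard : s.card = 2 := by
    have h1 := Pool.Agent.Lib.MP_938ce2_ag_h60.sum_type hA.sq hΦ (fun y => mult π s y)
    have h2 := hco 1
    have h3 := hco c
    simp only [one_smul] at h2
    rw [h2, h3] at h1
    have h4 : ∑ y, mult π s y = s.card := by
      unfold mult
      exact (card_eq_sum_card_fiberwise fun p _ => mem_univ (π p)).symm
    rw [h4] at h1
    exact h1.symm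
  obtain ⟨p, q, hpq, rfl⟩ := card_eq_two.mp hcard
  have h1 : ∀ σ : G, σ • π p ∈ Φ ↔ σ • (c • π q) ∈ Φ := by
    intro σ
    have h2 := hco σ⁻¹
    rw [sum_mult] at h2
    simp only [inv_inv] at h2
    have h3 : σ • (c • π q) = c • (σ • π q) := by
      rw [smul_smul, smul_smul, hA.comm]
    rw [h3]
    have h4 := hΦ (σ • π q)
    rw [filter_insert, filter_singleton] at h2
    by_cases a : σ • π p ∈ Φ <;> by_cases b : σ • π q ∈ Φ
    · rw [if_pos a, if_pos b, card_insert_of_notMem (by simpa using hpq), card_singleton] at h2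
      omega
    · rw [h4, not_not] at b
      exact ⟨fun _ => b, fun _ => a⟩
    · exact ⟨fun h => absurd h a, fun h => absurd h (h4.1 b)⟩
    · rw [if_neg a, if_neg b] at h2
      simp at h2
  have h2 : π p = c • π q := hP _ _ h1
  rw [prod_pair hpq, h2, hodd, ← zpow_add₀ two_ne_zero, neg_add_cancel, zpow_zero]

/-- RECIPE (generalises `h85.not_divisorGenerated`). Let `h` be odd, integral, nonzero, with
`∑ φ ∈ Φ, h (γ φ) = 0`. Let `N = ∑ |h x|` and `f x = (h x + N).toNat`. In `Coh ℚ X (2 N + 1)` (index set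
`Fin (2 N + 1) × X` with a linear order as in `h60.generatedByDivisors_of_nondeg`) let `s` be the set of the
`(i, x)` with `i < f x`, so `mult s x = f x` and `∑ φ ∈ Φ, mult s (γ φ) = N g`, `s.card = 2 N g`;
`h60.tateG_mB`: `mB s` is a Tate class of codimension `N g`. Suppose it is in the subalgebra generated by
the Tate classes of codimension one. Let `e : X → ℚ`, `e x = 2 ^ h x`. The algebra endomorphism
`θ = ExteriorAlgebra.map (diagMap ℚ (e ∘ π))` is the identity on Tate classes of codimension one: a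
monomial `{p, q}` which occurs has `[π p ∈ γ Φ] + [π q ∈ γ Φ] = 1` for all `γ` (`TateG.coord`), so
`π q = c • π p` by primitivity, so `e (π p) * e (π q) = 2 ^ (h x - h x) = 1`. So
`∏ p ∈ s, e (π p) = 1`, that is `∑ x, f x * h x = 0`; but it is `∑ h x ^ 2 + N ∑ h x = ∑ h x ^ 2 > 0`. -/
theorem not_generated (hA : Act G X c g) {Φ : Finset X} (hΦ : CMType c Φ) (hP : Prim G Φ)
    (hnd : ¬ Nondeg c Φ) : ¬ GeneratedByDivisors G Φ := by
  classical
  intro hgen
  unfold Nondeg at hnd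
  push Not at hnd
  obtain ⟨h, hodd, hsum, y0, hy0⟩ := hnd
  obtain ⟨N, hN⟩ : ∃ N : ℕ, N = ∑ x, (h x).natAbs := ⟨_, rfl⟩
  have hle : ∀ x, (h x).natAbs ≤ N := fun x => by
    rw [hN]
    exact single_le_sum (f := fun x => (h x).natAbs) (fun _ _ => Nat.zero_le _) (mem_univ x)
  obtain ⟨f, hf⟩ : ∃ f : X → ℕ, ∀ x, (f x : ℤ) = h x + N :=
    ⟨fun x => (h x + N).toNat, fun x => Int.toNat_of_nonneg (by have := hle x; omega)⟩
  have hfle : ∀ x, f x ≤ 2 * N := fun x => by
    have h1 := hf x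
    have h2 := hle x
    omega
  let I : Type := Fin (2 * N + 1) × X
  let _ : LinearOrder I := LinearOrder.lift' (Fintype.equivFin (Fin (2 * N + 1) × X))
    (Equiv.injective _)
  let π : I → X := Prod.snd
  let s : Finset I := univ.filter fun p => (p.1 : ℕ) < f p.2
  have hmult : ∀ x, Pool.Agent.Lib.MP_938ce2_ag_h85.mult π s x = f x := by
    intro x
    unfold Pool.Agent.Lib.MP_938ce2_ag_h85.mult
    have h1 : (s.filter fun p => π p = x) =
        (univ.filter fun i : Fin (2 * N + 1) => (i : ℕ) < f x).image fun i => ((i, x) : I) := by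
      ext ⟨i, y⟩
      simp only [s, π, mem_filter, mem_univ, true_and, mem_image]
      constructor
      · rintro ⟨h1, rfl⟩
        exact ⟨i, h1, rfl⟩
      · rintro ⟨j, h1, h2⟩
        obtain ⟨rfl, rfl⟩ := Prod.mk.inj h2
        exact ⟨h1, rfl⟩
    rw [h1, card_image_of_injective _ (fun a b hab => (Prod.mk.inj hab).1)]
    have h2 := hfle x
    have h3 : (univ.filter fun i : Fin (2 * N + 1) => (i : ℕ) < f x).card
        = (range (f x)).card := by
      refine card_bij (fun i _ => (i : ℕ)) ?_ ?_ ?_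
      · intro i hi
        rw [mem_filter] at hi
        exact mem_range.2 hi.2
      · intro i _ j _ hij
        exact Fin.ext hij
      · intro k hk
        rw [mem_range] at hk
        exact ⟨⟨k, by omega⟩, mem_filter.2 ⟨mem_univ _, hk⟩, rfl⟩
    rw [h3, card_range]
  have hΦg : Φ.card = g := by
    have h1 := Pool.Agent.Lib.MP_938ce2_ag_h60.card_cmType hA.sq hΦ
    rw [hA.card] at h1
    omega
  have hsum0 : ∑ x, h x = 0 := by
    have h1 := Pool.Agent.Lib.MP_938ce2_ag_h60.sum_type hA.sq hΦ h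
    have h2 := hsum 1
    have h3 := hsum c
    simp only [one_smul] at h2
    rw [← h1, h2, h3, add_zero]
  have hT : ∀ τ : G, ∑ φ ∈ Φ, Pool.Agent.Lib.MP_938ce2_ag_h85.mult π s (τ • φ) = N * g := by
    intro τ
    have h1 : ((∑ φ ∈ Φ, Pool.Agent.Lib.MP_938ce2_ag_h85.mult π s (τ • φ) : ℕ) : ℤ)
        = ((N * g : ℕ) : ℤ) := by
      push_cast
      have h2 : ∀ φ ∈ Φ, (Pool.Agent.Lib.MP_938ce2_ag_h85.mult π s (τ • φ) : ℤ)
          = h (τ • φ) + N := fun φ _ => by rw [hmult, hf]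
      rw [sum_congr rfl h2, sum_add_distrib, hsum τ]
      simp only [sum_const, nsmul_eq_mul, hΦg]
      ring
    exact_mod_cast h1
  have hsc : s.card = 2 * (N * g) := by
    have h1 : s.card = ∑ x, Pool.Agent.Lib.MP_938ce2_ag_h85.mult π s x := by
      unfold Pool.Agent.Lib.MP_938ce2_ag_h85.mult
      exact card_eq_sum_card_fiberwise fun p _ => mem_univ (π p)
    have h2 : ((s.card : ℕ) : ℤ) = ((2 * (N * g) : ℕ) : ℤ) := by
      rw [h1]
      push_cast
      have h3 : ∀ x ∈ (univ : Finset X), (Pool.Agent.Lib.MP_938ce2_ag_h85.mult π s x : ℤ)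
          = h x + N := fun x _ => by rw [hmult, hf]
      rw [sum_congr rfl h3, sum_add_distrib, hsum0]
      simp only [sum_const, nsmul_eq_mul, card_univ, hA.card]
      push_cast
      ring
    exact_mod_cast h2
  have htate : Pool.Agent.Lib.MP_938ce2_ag_h60.TateG G ℚ π Φ (N * g)
      (Pool.Agent.Lib.MP_938ce2_ag_h85.mB ℚ s) :=
    Pool.Agent.Lib.MP_938ce2_ag_h60.tateG_mB hsc hT
  have hmem : Pool.Agent.Lib.MP_938ce2_ag_h85.mB ℚ s ∈ Algebra.adjoin ℚ
      {y | Pool.Agent.Lib.MP_938ce2_ag_h60.TateG G ℚ π Φ 1 y} :=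
    hgen ℚ (2 * N + 1) (N * g) _ htate
  set θ := ExteriorAlgebra.map (Pool.Agent.Lib.MP_938ce2_ag_h85.diagMap ℚ
    fun p : I => (2 : ℚ) ^ (h (π p))) with hθ
  have hle2 : Algebra.adjoin ℚ {y | Pool.Agent.Lib.MP_938ce2_ag_h60.TateG G ℚ π Φ 1 y} ≤
      AlgHom.equalizer θ (AlgHom.id ℚ _) := by
    rw [Algebra.adjoin_le_iff]
    intro y hy
    have hy' : Pool.Agent.Lib.MP_938ce2_ag_h60.TateG G ℚ π Φ 1 y := hy
    change θ y = y
    apply (Pool.Agent.Lib.MP_938ce2_ag_h85.mB ℚ).ext_elem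
    intro t
    rw [hθ, Pool.Agent.Lib.MP_938ce2_ag_h85.repr_map_diag]
    by_cases h0 : (Pool.Agent.Lib.MP_938ce2_ag_h85.mB ℚ).repr y t = 0
    · rw [h0, mul_zero]
    · rw [prod_one hA hΦ hP h hodd hy' h0, one_mul]
  have hfix : θ (Pool.Agent.Lib.MP_938ce2_ag_h85.mB ℚ s) = Pool.Agent.Lib.MP_938ce2_ag_h85.mB ℚ s :=
    hle2 hmem
  rw [hθ, Pool.Agent.Lib.MP_938ce2_ag_h85.map_diag_mB] at hfix
  have h1 := congrArg (fun y => (Pool.Agent.Lib.MP_938ce2_ag_h85.mB ℚ).repr y s) hfix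
  simp only [map_smul, Finsupp.smul_apply, Basis.repr_self, Finsupp.single_eq_same, smul_eq_mul,
    mul_one] at h1
  have h2 : ∀ t : Finset I, ∏ p ∈ t, (2 : ℚ) ^ (h (π p)) = (2 : ℚ) ^ (∑ p ∈ t, h (π p)) := by
    intro t
    induction t using Finset.induction_on with
    | empty => simp
    | insert a t ha ih => rw [prod_insert ha, sum_insert ha, zpow_add₀ two_ne_zero, ih]
  rw [h2] at h1
  have h3 : ∑ p ∈ s, h (π p) = 0 := by
    have h4 : (2 : ℚ) ^ (∑ p ∈ s, h (π p)) = (2 : ℚ) ^ (0 : ℤ) := by rw [h1, zpow_zero]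
    exact zpow_right_injective₀ (by norm_num) (by norm_num) h4
  have h4 : ∑ p ∈ s, h (π p) = ∑ x, (f x : ℤ) * h x := by
    rw [← sum_fiberwise s π]
    refine sum_congr rfl fun x _ => ?_
    rw [sum_congr rfl (g := fun _ => h x) (fun p hp => by rw [(mem_filter.1 hp).2]), sum_const,
      nsmul_eq_mul]
    congr 2
    exact hmult x
  rw [h4] at h3
  have h5 : ∀ x ∈ (univ : Finset X), (f x : ℤ) * h x = h x ^ 2 + N * h x := fun x _ => by
    rw [hf]
    ring
  rw [sum_congr rfl h5, sum_add_distrib, ← mul_sum, hsum0, mul_zero, add_zero] at h3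
  have h6 := (sum_eq_zero_iff_of_nonneg fun x _ => sq_nonneg (h x)).1 h3 y0 (mem_univ _)
  exact hy0 (pow_eq_zero_iff (two_ne_zero) |>.1 h6)

end Pool.Agent.Lib.MP_938ce2_ag_L3
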