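import Pool.Agent.Lib.MP_938ce2_ag_L3.A1
import Pool.Agent.Lib.MP_938ce2_ag_L3.B4
import Pool.Agent.Lib.MP_938ce2_ag_L3.B7
import Pool.Agent.Lib.MP_938ce2_ag_L3.B8
import Pool.Agent.Lib.MP_938ce2_ag_L3.B9
import Pool.Agent.Lib.MP_938ce2_ag_L3.B10

/-!
Row C1: the lower bound for the number of CM types with exotic classes.
-/

set_option autoImplicit false
set_option linter.unusedSectionVars false

namespace Pool.Agent.Lib.MP_938ce2_ag_L3

open Finset Module
open Pool.Agent.Lib.MP_938ce2_ag_h67 (sg)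
open Pool.Agent.Lib.MP_938ce2_ag_h60 (CMType GeneratedByDivisors Nondeg)
open Pool.Agent.Lib.MP_938ce2_ag_u2 (Act)

section

variable {G X : Type} [Group G] [Fintype G] [MulAction G X] [Fintype X] [DecidableEq X]
  [MulAction.IsPretransitive G X] {c : G} {g : ℕ}

open Classical in
/-- the degenerate types are exotic or not primitive -/
theorem union_le (hA : Act G X c g) {ι : Type} (S : Finset ι) (A : ι → Finset (Finset X))
    (h : ∀ i ∈ S, ∀ Φ ∈ A i, CMType c Φ ∧ ¬ Nondeg c Φ) :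
    ((S.biUnion A).card : ℝ) ≤
      (Nat.card {Φ : Finset X // CMType c Φ ∧ ¬ GeneratedByDivisors G Φ} : ℝ)
        + 2 * g * 2 ^ (g / 2) := by
  have h1 : S.biUnion A ⊆
      (univ.filter fun Φ : Finset X => CMType c Φ ∧ ¬ GeneratedByDivisors G Φ) ∪
        (univ.filter fun Φ : Finset X => CMType c Φ ∧ ¬ Prim G Φ) := by
    intro Φ hΦ
    obtain ⟨i, hi, hΦi⟩ := Finset.mem_biUnion.1 hΦ
    obtain ⟨hcm, hnd⟩ := h i hi Φ hΦi
    by_cases hP : Prim G Φ
    · exact Finset.mem_union_left _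
        (Finset.mem_filter.2 ⟨mem_univ _, hcm, not_generated hA hcm hP hnd⟩)
    · exact Finset.mem_union_right _ (Finset.mem_filter.2 ⟨mem_univ _, hcm, hP⟩)
  have h2 := (Finset.card_le_card h1).trans (Finset.card_union_le _ _)
  have h3 : (univ.filter fun Φ : Finset X => CMType c Φ ∧ ¬ Prim G Φ).card ≤
      2 * g * 2 ^ (g / 2) := by
    convert card_not_prim hA
  have h4 : (univ.filter fun Φ : Finset X => CMType c Φ ∧ ¬ GeneratedByDivisors G Φ).card =
      Nat.card {Φ : Finset X // CMType c Φ ∧ ¬ GeneratedByDivisors G Φ} := by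
    rw [Nat.card_eq_fintype_card, Fintype.card_subtype]
  rw [h4] at h2
  have h5 := h2.trans (Nat.add_le_add_left h3 _)
  have h6 : (((S.biUnion A).card : ℕ) : ℝ) ≤
      ((Nat.card {Φ : Finset X // CMType c Φ ∧ ¬ GeneratedByDivisors G Φ} +
        2 * g * 2 ^ (g / 2) : ℕ) : ℝ) := by
    exact_mod_cast h5
  push_cast at h6
  exact h6

/-- the general form of the three bounds -/
private theorem bound_aux (hA : Act G X c g) (S : Finset (Subgroup G))
    (A : Subgroup G → Finset (Finset X)) (p C : ℝ) (hp : 0 < p) (hC : 0 ≤ C)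
    (h : ∀ i ∈ S, ∀ Φ ∈ A i, CMType c Φ ∧ ¬ Nondeg c Φ)
    (h1 : ∀ i ∈ S, p * 2 ^ g ≤ ((A i).card : ℝ))
    (h2 : ∀ i ∈ S, ∀ j ∈ S, i ≠ j → ((A i ∩ A j).card : ℝ) ≤ C * p ^ 2 * 2 ^ g) :
    min 1 ((S.card : ℝ) * p) / (1 + C) ≤
      (Nat.card {Φ : Finset X // CMType c Φ ∧ ¬ GeneratedByDivisors G Φ} : ℝ) / 2 ^ g
        + 2 * g * 2 ^ (g / 2) / 2 ^ g := by
  classical
  have hN : (0 : ℝ) < 2 ^ g := by positivity
  have h3 := second_moment S A (2 ^ g) p C hN hp hC h1
    (fun i hi j hj hij => by convert h2 i hi j hj hij)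
  have h4 := union_le hA S A h
  have h5 : min 1 ((S.card : ℝ) * p) / (1 + C) * 2 ^ g ≤
      (Nat.card {Φ : Finset X // CMType c Φ ∧ ¬ GeneratedByDivisors G Φ} : ℝ)
        + 2 * g * 2 ^ (g / 2) := by
    refine h3.trans (le_trans (le_of_eq ?_) h4)
    congr!
  rw [← add_div, le_div_iff₀ hN]
  exact h5

/-- comparison of the constants -/
private theorem const_aux (a p C s : ℝ) (ha : 0 ≤ a) (hC : 0 ≤ C) (θ : ℝ) (hθ0 : 0 < θ)
    (hθ1 : θ ≤ 1) (hs : 0 ≤ s) (hp : p = θ * s) (hCθ : 1 + C ≤ 1000 * θ) :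
    (1 / 1000) * min 1 (a * s) ≤ min 1 (a * p) / (1 + C) := by
  have h1 : (0 : ℝ) < 1 + C := by linarith
  rw [le_div_iff₀ h1]
  have hm0 : 0 ≤ min 1 (a * s) := le_min zero_le_one (mul_nonneg ha hs)
  have h2 : θ * min 1 (a * s) ≤ min 1 (a * p) := by
    refine le_min ?_ ?_
    · calc θ * min 1 (a * s) ≤ 1 * 1 :=
            mul_le_mul hθ1 (min_le_left _ _) hm0 zero_le_one
        _ = 1 := one_mul 1
    · calc θ * min 1 (a * s) ≤ θ * (a * s) :=
            mul_le_mul_of_nonneg_left (min_le_right _ _) hθ0.le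
        _ = a * p := by rw [hp]; ring
  calc (1 / 1000) * min 1 (a * s) * (1 + C) = (1 + C) / 1000 * min 1 (a * s) := by ring
    _ ≤ θ * min 1 (a * s) := by
        refine mul_le_mul_of_nonneg_right ?_ hm0
        linarith
    _ ≤ _ := h2

private theorem inv_g_le (hg : 1 ≤ g) : (1 : ℝ) / g ≤ 1 / √g := by
  have h1 : (1 : ℝ) ≤ g := by exact_mod_cast hg
  have h2 : (0 : ℝ) < √g := Real.sqrt_pos.2 (by linarith)
  refine one_div_le_one_div_of_le h2 ?_
  rw [Real.sqrt_le_left (by linarith)]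
  nlinarith

private theorem rest_nonneg :
    (0 : ℝ) ≤ (Nat.card {Φ : Finset X // CMType c Φ ∧ ¬ GeneratedByDivisors G Φ} : ℝ) / 2 ^ g
        + 2 * g * 2 ^ (g / 2) / 2 ^ g := by
  positivity

private theorem not_bot_of_le {V : Submodule ℚ (X → ℚ)} {d : ℕ} (hd : 0 < d)
    (h : d ≤ finrank ℚ V) : V ≠ ⊥ := by
  rintro rfl
  rw [finrank_bot] at h
  omega

/-- RECIPE (for all three): if the set has at most one element the left hand side is at most `1 / √ g`
(absorbed by the last term); otherwise `even_of_quad`, `four_dvd_of_quart`; `second_moment` with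
`Ω = Finset X`, `N = 2 ^ g`, `p = 1 / (2 √ g)` (`quad_lower`, `choose_mid_ge`), resp. `p = 1 / (2 g)`
(`quart_lower`), resp. `p = 3 / (4 g)` (`sext_lower`, `sum_choose_cube`), and `pair_bound` with `n = 2`, `d = 1`,
resp. `n = 4`, `d = 2`, resp. `n = 6`, `d = 2`. -/
theorem quad_bound (hA : Act G X c g) (x0 : X) :
    (1 / 1000) * min 1 (((Quad c x0).ncard : ℝ) / √g) ≤
      (Nat.card {Φ : Finset X // CMType c Φ ∧ ¬ GeneratedByDivisors G Φ} : ℝ) / 2 ^ g
        + 2 * g * 2 ^ (g / 2) / 2 ^ g + 1 / √g := by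
  classical
  have hg := hA.pos
  have hgR : (1 : ℝ) ≤ g := by exact_mod_cast hg
  have hsq : (0 : ℝ) < √g := Real.sqrt_pos.2 (by linarith)
  have hsq2 : √g * √g = (g : ℝ) := Real.mul_self_sqrt (by linarith)
  have hfin : (Quad c x0).Finite := Set.toFinite _
  have hcard : (Quad c x0).ncard = hfin.toFinset.card := Set.ncard_eq_toFinset_card _ hfin
  by_cases hle : (Quad c x0).ncard ≤ 1
  · have h1 : ((Quad c x0).ncard : ℝ) ≤ 1 := by exact_mod_cast hle
    have h2 : ((Quad c x0).ncard : ℝ) / √g ≤ 1 / √g := div_le_div_of_nonneg_right h1 hsq.le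
    have h3 : (0 : ℝ) ≤ 1 / √g := by positivity
    have h4 := rest_nonneg (G := G) (X := X) (c := c) (g := g)
    have h5 : min 1 (((Quad c x0).ncard : ℝ) / √g) ≤ 1 / √g := (min_le_right _ _).trans h2
    linarith
  · push Not at hle
    obtain ⟨K1, h1, K2, h2, hne⟩ := (Set.one_lt_ncard hfin).1 hle
    have he : Even g := even_of_quad hA x0 h1 h2 hne
    have key := bound_aux hA hfin.toFinset (fun K => orthT c (VK c x0 K)) (1 / (2 * √g)) 8
      (by positivity) (by norm_num) ?_ ?_ ?_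
    · rw [← hcard] at key
      have h6 := const_aux ((Quad c x0).ncard : ℝ) (1 / (2 * √g)) 8 (1 / √g) (by positivity)
        (by norm_num) (1 / 2) (by norm_num) (by norm_num) (by positivity) (by field_simp)
        (by norm_num)
      have h7 : (0 : ℝ) ≤ 1 / √g := by positivity
      rw [mul_one_div] at h6
      linarith
    · intro K hK Φ hΦ
      have hKq : K ∈ Quad c x0 := hfin.mem_toFinset.1 hK
      exact ⟨(mem_orthT.1 hΦ).1, not_nondeg_of_orth hA (fun v hv => (mem_VK.1 hv).1)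
        (VK_inv hA x0 K) (not_bot_of_le one_pos (finrank_quad hA x0 K hKq)) hΦ⟩
    · intro K hK
      have hKq : K ∈ Quad c x0 := hfin.mem_toFinset.1 hK
      have h3 : ((g.choose (g / 2) : ℕ) : ℝ) ≤ ((orthT c (VK c x0 K)).card : ℝ) := by
        exact_mod_cast quad_lower hA x0 K hKq he
      refine le_trans (le_of_eq ?_) ((choose_mid_ge g hg he).trans h3)
      ring
    · intro K hK K' hK' hKK
      have hKq : K ∈ Quad c x0 := hfin.mem_toFinset.1 hK
      have hKq' : K' ∈ Quad c x0 := hfin.mem_toFinset.1 hK'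
      have h3 := pair_bound hA x0 K K' hKq.1 hKq'.1 hKq.2.2 2 1 hKq.2.1.le hKq'.2.1.le
        (VK c x0 K) (VK c x0 K') le_rfl le_rfl (finrank_quad hA x0 K hKq)
        (finrank_quad hA x0 K' hKq') (disj_quad hA x0 hKq hKq' hKK)
      refine le_trans (le_of_eq ?_) (h3.trans (le_of_eq ?_))
      · congr!
      · have h5 : (1 / (2 * √(g : ℝ))) ^ 2 = 1 / (4 * g) := by
          rw [div_pow, mul_pow, sq (√(g : ℝ)), hsq2]
          norm_num
        rw [h5]
        push_cast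
        field_simp
        norm_num

theorem quart_bound (hA : Act G X c g) (x0 : X) :
    (1 / 1000) * min 1 (((Quart c x0).ncard : ℝ) / g) ≤
      (Nat.card {Φ : Finset X // CMType c Φ ∧ ¬ GeneratedByDivisors G Φ} : ℝ) / 2 ^ g
        + 2 * g * 2 ^ (g / 2) / 2 ^ g + 1 / √g := by
  classical
  have hg := hA.pos
  have hgR : (1 : ℝ) ≤ g := by exact_mod_cast hg
  have hg0 : (0 : ℝ) < g := by linarith
  have hsq : (0 : ℝ) < √g := Real.sqrt_pos.2 (by linarith)
  have hfin : (Quart c x0).Finite := Set.toFinite _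
  have hcard : (Quart c x0).ncard = hfin.toFinset.card := Set.ncard_eq_toFinset_card _ hfin
  by_cases hle : (Quart c x0).ncard ≤ 1
  · have h1 : ((Quart c x0).ncard : ℝ) ≤ 1 := by exact_mod_cast hle
    have h2 : ((Quart c x0).ncard : ℝ) / g ≤ 1 / √g :=
      (div_le_div_of_nonneg_right h1 hg0.le).trans (inv_g_le hg)
    have h3 : (0 : ℝ) ≤ 1 / √g := by positivity
    have h4 := rest_nonneg (G := G) (X := X) (c := c) (g := g)
    have h5 : min 1 (((Quart c x0).ncard : ℝ) / g) ≤ 1 / √g := (min_le_right _ _).trans h2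
    linarith
  · push Not at hle
    obtain ⟨K1, h1, K2, h2, hne⟩ := (Set.one_lt_ncard hfin).1 hle
    obtain ⟨s, hs⟩ : 4 ∣ g := four_dvd_of_quart hA x0 h1.1 h2.1 h1.2.2.1 h2.2.2.1 h1.2.1 h2.2.1 hne
    have hr : 2 * (2 * s) = g := by omega
    have he : Even (2 * s) := even_two_mul s
    have hr1 : 1 ≤ 2 * s := by omega
    have hrR : (2 : ℝ) * ((2 * s : ℕ) : ℝ) = g := by exact_mod_cast hr
    generalize 2 * s = r at hr he hr1 hrR
    have key := bound_aux hA hfin.toFinset (fun K => orthT c (VK c x0 K)) (1 / (2 * g)) 256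
      (by positivity) (by norm_num) ?_ ?_ ?_
    · rw [← hcard] at key
      have h6 := const_aux ((Quart c x0).ncard : ℝ) (1 / (2 * g)) 256 (1 / g) (by positivity)
        (by norm_num) (1 / 2) (by norm_num) (by norm_num) (by positivity) (by field_simp)
        (by norm_num)
      have h7 : (0 : ℝ) ≤ 1 / √g := by positivity
      rw [mul_one_div] at h6
      linarith
    · intro K hK Φ hΦ
      have hKq : K ∈ Quart c x0 := hfin.mem_toFinset.1 hK
      exact ⟨(mem_orthT.1 hΦ).1, not_nondeg_of_orth hA (fun v hv => (mem_VK.1 hv).1)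
        (VK_inv hA x0 K) (not_bot_of_le two_pos
          (finrank_quart hA x0 K hKq.1 hKq.2.2.1 hKq.2.1)) hΦ⟩
    · intro K hK
      have hKq : K ∈ Quart c x0 := hfin.mem_toFinset.1 hK
      have h3 : (((r.choose (r / 2)) ^ 2 : ℕ) : ℝ) ≤ ((orthT c (VK c x0 K)).card : ℝ) := by
        exact_mod_cast quart_lower hA x0 K hKq.1 hKq.2.2.1 hKq.2.1 r hr he
      push_cast at h3
      have h4 := choose_mid_ge r hr1 he
      have h5 : (0 : ℝ) ≤ 2 ^ r / (2 * √r) := by positivity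
      have h6 : (2 ^ r / (2 * √r)) ^ 2 ≤ ((r.choose (r / 2) : ℕ) : ℝ) ^ 2 :=
        pow_le_pow_left₀ h5 h4 2
      refine le_trans (le_of_eq ?_) (h6.trans h3)
      have hrr : √r * √r = (r : ℝ) := Real.mul_self_sqrt (by positivity)
      rw [div_pow, mul_pow, sq (√(r : ℝ)), hrr, ← hrR, ← hr, mul_comm 2 r, pow_mul]
      have hr0 : (0 : ℝ) < r := by exact_mod_cast hr1
      field_simp
    · intro K hK K' hK' hKK
      have hKq : K ∈ Quart c x0 := hfin.mem_toFinset.1 hK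
      have hKq' : K' ∈ Quart c x0 := hfin.mem_toFinset.1 hK'
      have h3 := pair_bound hA x0 K K' hKq.1 hKq'.1 hKq.2.2.1 4 2 hKq.2.1.le hKq'.2.1.le
        (VK c x0 K) (VK c x0 K') le_rfl le_rfl
        (finrank_quart hA x0 K hKq.1 hKq.2.2.1 hKq.2.1)
        (finrank_quart hA x0 K' hKq'.1 hKq'.2.2.1 hKq'.2.1) (disj_quart hA x0 hKq hKq' hKK)
      refine le_trans (le_of_eq ?_) (h3.trans (le_of_eq ?_))
      · congr!
      · push_cast
        field_simp
        norm_num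

theorem sext_bound (hA : Act G X c g) (x0 : X) :
    (1 / 1000) * min 1 (((Sext c x0).ncard : ℝ) / g) ≤
      (Nat.card {Φ : Finset X // CMType c Φ ∧ ¬ GeneratedByDivisors G Φ} : ℝ) / 2 ^ g
        + 2 * g * 2 ^ (g / 2) / 2 ^ g + 1 / √g := by
  classical
  have hg := hA.pos
  have hgR : (1 : ℝ) ≤ g := by exact_mod_cast hg
  have hg0 : (0 : ℝ) < g := by linarith
  have hsq : (0 : ℝ) < √g := Real.sqrt_pos.2 (by linarith)
  have hfin : (Sext c x0).Finite := Set.toFinite _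
  have hcard : (Sext c x0).ncard = hfin.toFinset.card := Set.ncard_eq_toFinset_card _ hfin
  have hex : ∀ K : Subgroup G, ∃ K' : Subgroup G, K ∈ Sext c x0 → K' ∈ Quad c x0 ∧ K ≤ K' := by
    intro K
    by_cases hK : K ∈ Sext c x0
    · obtain ⟨K', h1, h2⟩ := hK.2.2.2
      exact ⟨K', fun _ => ⟨h1, h2⟩⟩
    · exact ⟨⊤, fun h => absurd h hK⟩
  choose κ hκ using hex
  have key := bound_aux hA hfin.toFinset (fun K => orthT c (VS c x0 K (κ K))) (3 / (4 * g)) 576
    (by positivity) (by norm_num) ?_ ?_ ?_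
  · rw [← hcard] at key
    have h6 := const_aux ((Sext c x0).ncard : ℝ) (3 / (4 * g)) 576 (1 / g) (by positivity)
      (by norm_num) (3 / 4) (by norm_num) (by norm_num) (by positivity) (by field_simp)
      (by norm_num)
    have h7 : (0 : ℝ) ≤ 1 / √g := by positivity
    rw [mul_one_div] at h6
    linarith
  · intro K hK Φ hΦ
    have hKq : K ∈ Sext c x0 := hfin.mem_toFinset.1 hK
    obtain ⟨hk1, hk2⟩ := hκ K hKq
    exact ⟨(mem_orthT.1 hΦ).1, not_nondeg_of_orth hA (fun v hv => (mem_VK.1 (mem_VS.1 hv).1).1)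
      (VS_inv hA x0 K (κ K) hk1) (not_bot_of_le two_pos
        (finrank_sext hA x0 K (κ K) hKq.1 hKq.2.1 hk1 hk2)) hΦ⟩
  · intro K hK
    have hKq : K ∈ Sext c x0 := hfin.mem_toFinset.1 hK
    obtain ⟨hk1, hk2⟩ := hκ K hKq
    obtain ⟨r, hr⟩ : ∃ r : ℕ, 3 * r = g := by
      obtain ⟨β, _, hβ⟩ := exists_blk x0 K hKq.1
      refine ⟨(univ.filter fun x => β x = ((1 : G) : G ⧸ K)).card, ?_⟩
      have h1 := hβ ((1 : G) : G ⧸ K)
      rw [hKq.2.1, hA.card] at h1
      omega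
    have hr1 : 1 ≤ r := by omega
    have h3 : ((∑ v ∈ range (r + 1), (r.choose v) ^ 3 : ℕ) : ℝ) ≤
        ((orthT c (VS c x0 K (κ K))).card : ℝ) := by
      exact_mod_cast sext_lower hA x0 K (κ K) hKq.1 hKq.2.1 hk1 hk2 r hr
    have h4 : ((2 ^ (3 * r) : ℕ) : ℝ) ≤
        (((∑ v ∈ range (r + 1), (r.choose v) ^ 3) * (4 * r) : ℕ) : ℝ) := by
      exact_mod_cast sum_choose_cube r hr1
    rw [hr, Nat.cast_mul] at h4
    push_cast at h3 h4
    have hr0 : (0 : ℝ) < r := by exact_mod_cast hr1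
    have h5 : (2 : ℝ) ^ g / (4 * r) ≤ ∑ v ∈ range (r + 1), ((r.choose v : ℕ) : ℝ) ^ 3 := by
      rw [div_le_iff₀ (by positivity)]
      exact h4
    refine le_trans (le_of_eq ?_) (h5.trans h3)
    have hrR : (3 : ℝ) * (r : ℝ) = g := by exact_mod_cast hr
    rw [← hrR]
    field_simp
  · intro K hK K' hK' hKK
    have hKq : K ∈ Sext c x0 := hfin.mem_toFinset.1 hK
    have hKq' : K' ∈ Sext c x0 := hfin.mem_toFinset.1 hK'
    obtain ⟨hk1, hk2⟩ := hκ K hKq
    obtain ⟨hk1', hk2'⟩ := hκ K' hKq'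
    have h3 := pair_bound hA x0 K K' hKq.1 hKq'.1 hKq.2.2.1 6 2 hKq.2.1.le hKq'.2.1.le
      (VS c x0 K (κ K)) (VS c x0 K' (κ K')) (fun v hv => (mem_VS.1 hv).1)
      (fun v hv => (mem_VS.1 hv).1)
      (finrank_sext hA x0 K (κ K) hKq.1 hKq.2.1 hk1 hk2)
      (finrank_sext hA x0 K' (κ K') hKq'.1 hKq'.2.1 hk1' hk2')
      (disj_sext hA x0 hKq.1 hKq'.1 hKq.2.1 hKq'.2.1 hk1 hk1' hk2 hk2' hKK)
    refine le_trans (le_of_eq ?_) (h3.trans (le_of_eq ?_))
    · congr!
    · push_cast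
      field_simp
      norm_num

end

/-- `2 g 2 ^ (g / 2) / 2 ^ g + 1 / √ g → 0` -/
private theorem rest_small (η : ℝ) (hη : 0 < η) : ∃ g₀ : ℕ, ∀ g : ℕ, g₀ ≤ g →
    2 * (g : ℝ) * 2 ^ (g / 2) / 2 ^ g + 1 / √g ≤ η := by
  have h1 : Filter.Tendsto (fun n : ℕ => (n : ℝ) * (1 / √2) ^ n) Filter.atTop (nhds 0) := by
    refine tendsto_self_mul_const_pow_of_lt_one (by positivity) ?_
    rw [div_lt_one (by positivity)]
    exact Real.lt_sqrt_of_sq_lt (by norm_num)
  have h2 : Filter.Tendsto (fun n : ℕ => 1 / √(n : ℝ)) Filter.atTop (nhds 0) := by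
    have h := (Real.tendsto_sqrt_atTop.comp tendsto_natCast_atTop_atTop).inv_tendsto_atTop
    (refine h.congr fun n => ?_)
    simp
  have h3 : ∀ᶠ n : ℕ in Filter.atTop, (n : ℝ) * (1 / √2) ^ n < η / 4 :=
    h1.eventually (gt_mem_nhds (by positivity))
  have h4 : ∀ᶠ n : ℕ in Filter.atTop, 1 / √(n : ℝ) < η / 2 :=
    h2.eventually (gt_mem_nhds (by positivity))
  obtain ⟨g₀, hg₀⟩ := Filter.eventually_atTop.1 (h3.and h4)
  refine ⟨g₀, fun g hg => ?_⟩
  obtain ⟨h5, h6⟩ := hg₀ g hg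
  have h7 : (2 : ℝ) ^ (g / 2) / 2 ^ g ≤ (1 / √2) ^ g := by
    have h2s : √2 * √2 = (2 : ℝ) := Real.mul_self_sqrt (by norm_num)
    have h1s : (1 : ℝ) ≤ √2 := by
      rw [Real.one_le_sqrt]
      norm_num
    have h8 : (2 : ℝ) ^ (g / 2) ≤ √2 ^ g := by
      calc (2 : ℝ) ^ (g / 2) = (√2 ^ 2) ^ (g / 2) := by rw [sq, h2s]
        _ = √2 ^ (2 * (g / 2)) := by rw [pow_mul]
        _ ≤ √2 ^ g := pow_le_pow_right₀ h1s (Nat.mul_div_le g 2)
    rw [div_pow, one_pow, div_le_div_iff₀ (by positivity) (by positivity), one_mul]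
    calc (2 : ℝ) ^ (g / 2) * √2 ^ g ≤ √2 ^ g * √2 ^ g :=
          mul_le_mul_of_nonneg_right h8 (by positivity)
      _ = 2 ^ g := by rw [← mul_pow, h2s]
  have h8 : 2 * (g : ℝ) * 2 ^ (g / 2) / 2 ^ g ≤ 2 * ((g : ℝ) * (1 / √2) ^ g) := by
    rw [mul_div_assoc, mul_assoc]
    exact mul_le_mul_of_nonneg_left (mul_le_mul_of_nonneg_left h7 (by positivity)) (by norm_num)
  linarith

/-- `2 g 2 ^ (g / 2) / 2 ^ g + 1 / √ g → 0`, `min 1 (a + b + c) ≤ min 1 a + min 1 b + min 1 c` -/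
theorem lower_G : ∀ η : ℝ, 0 < η → ∃ g₀ : ℕ, ∀ (G X : Type) [Group G] [Fintype G]
    [MulAction G X] [Fintype X] [DecidableEq X] [MulAction.IsPretransitive G X] (c : G) (g : ℕ)
    (x0 : X), Act G X c g → g₀ ≤ g →
    (1 / 3000) * min 1 (((Quad c x0).ncard : ℝ) / √g
        + (((Quart c x0).ncard : ℝ) + ((Sext c x0).ncard : ℝ)) / g) ≤
      (Nat.card {Φ : Finset X // CMType c Φ ∧ ¬ GeneratedByDivisors G Φ} : ℝ) / 2 ^ g + η := by
  intro η hη
  obtain ⟨g₀, hg₀⟩ := rest_small η hη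
  refine ⟨g₀, fun G X _ _ _ _ _ _ c g x0 hA hg => ?_⟩
  have h1 := quad_bound hA x0
  have h2 := quart_bound hA x0
  have h3 := sext_bound hA x0
  have h4 := hg₀ g hg
  have h5 : ∀ a b : ℝ, 0 ≤ a → 0 ≤ b → min 1 (a + b) ≤ min 1 a + min 1 b := by
    intro a b ha hb
    rcases le_total 1 a with h | h
    · rw [min_eq_left h]
      exact (min_le_left _ _).trans (by
        have := le_min zero_le_one hb
        linarith)
    · rcases le_total 1 b with h' | h'
      · rw [min_eq_left h']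
        exact (min_le_left _ _).trans (by
          have := le_min zero_le_one ha
          linarith)
      · rw [min_eq_right h, min_eq_right h']
        exact min_le_right _ _
  have h6 : min 1 (((Quad c x0).ncard : ℝ) / √g
        + (((Quart c x0).ncard : ℝ) + ((Sext c x0).ncard : ℝ)) / g) ≤
      min 1 (((Quad c x0).ncard : ℝ) / √g) + (min 1 (((Quart c x0).ncard : ℝ) / g)
        + min 1 (((Sext c x0).ncard : ℝ) / g)) := by
    rw [add_div]
    refine (h5 _ _ (by positivity) (by positivity)).trans ?_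
    exact add_le_add le_rfl (h5 _ _ (by positivity) (by positivity))
  linarith

end Pool.Agent.Lib.MP_938ce2_ag_L3
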