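import Mathlib
import Pool.Agent.Lib.MP_938ce2_ag_h60.NumField

/-!
The share of the exceptional CM types of a CM field and the numbers of its small CM subfields.
-/

set_option autoImplicit false
set_option linter.unusedSectionVars false

namespace Pool.Agent.Lib.MP_938ce2_ag_L3

open Module NumberField
open Pool.Agent.Lib.MP_938ce2_ag_h60 (CMType GeneratedByDivisors conj)

/-- the imaginary quadratic subfields of `E` -/
def ImagQuad (E : Type) [Field E] [NumberField E] : Set (IntermediateField ℚ E) :=
  {k | IsCMField k ∧ finrank ℚ k = 2}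

/-- the CM subfields of `E` of degree four, and those of degree six which contain an imaginary
quadratic field -/
def SmallCM (E : Type) [Field E] [NumberField E] : Set (IntermediateField ℚ E) :=
  {F | IsCMField F ∧ (finrank ℚ F = 4 ∨ finrank ℚ F = 6 ∧ ∃ k ∈ ImagQuad E, k ≤ F)}

/-- `a / √g + b / g` where `[E : ℚ] = 2 g`, `a` is the number of imaginary quadratic subfields and `b` the
number of quartic CM subfields and of sextic CM subfields with an imaginary quadratic subfield -/
noncomputable def meas (E : Type) [Field E] [NumberField E] : ℝ :=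
  ((ImagQuad E).ncard : ℝ) / √((finrank ℚ E : ℝ) / 2) +
    ((SmallCM E).ncard : ℝ) / ((finrank ℚ E : ℝ) / 2)

/-- the share of the CM types of `E` for which the Tate classes on the powers of the abelian variety
are not generated by divisor classes (the embeddings of `E` are taken in the Galois CM field `L`) -/
noncomputable def share (L E : Type) [Field L] [NumberField L] [IsCMField L] [Field E]
    [NumberField E] : ℝ :=
  (Nat.card {Φ : Finset (E →ₐ[ℚ] L) // CMType (conj L) Φ ∧ ¬ GeneratedByDivisors (L ≃ₐ[ℚ] L) Φ} : ℝ) /
    (Nat.card {Φ : Finset (E →ₐ[ℚ] L) // CMType (conj L) Φ} : ℝ)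

/-- all subfields of `E` which are Galois over `ℚ` are abelian over `ℚ` -/
def AbelianSubfields (E : Type) [Field E] [NumberField E] : Prop :=
  ∀ K : IntermediateField ℚ E, IsGalois ℚ K → ∀ σ τ : K ≃ₐ[ℚ] K, σ * τ = τ * σ

end Pool.Agent.Lib.MP_938ce2_ag_L3
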