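import Pool.Agent.Lib.MP_938ce2_ag_L3.C1
import Pool.Agent.Lib.MP_938ce2_ag_L3.FD
import Pool.Agent.Lib.MP_938ce2_ag_u2.NF

/-!
Row F1: subfields and subgroups (lower bound side).

`F ↦ (F.map x0).fixingSubgroup` is injective (Galois theory in `L`), its index is `[F : ℚ]`
(`u2.H7.finrank_eq_index`), it contains the stabilizer of `x0` (`u2.H7.mem_fixing_range`), it does not contain
`conj L` if `F` is a CM field (`conj L (x0 y) = x0 (complexConj E y)`, `u2.H7.conj_smul_apply`, and for `F`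
itself the same with `x0.comp F.val`; complex conjugation is not trivial on `F`).
-/

set_option autoImplicit false
set_option linter.unusedSectionVars false

namespace Pool.Agent.Lib.MP_938ce2_ag_L3

open Module NumberField
open Pool.Agent.Lib.MP_938ce2_ag_h60 (CMType GeneratedByDivisors conj)
open Pool.Agent.Lib.MP_938ce2_ag_u2 (Act)

variable {L E : Type} [Field L] [NumberField L] [IsGalois ℚ L] [IsCMField L] [Field E]
  [NumberField E] [IsCMField E]

/-- the subgroup of the subfield `F` -/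
private noncomputable def sgp (x0 : E →ₐ[ℚ] L) (F : IntermediateField ℚ E) :
    Subgroup (L ≃ₐ[ℚ] L) := (F.map x0).fixingSubgroup

private theorem mem_sgp {x0 : E →ₐ[ℚ] L} {F : IntermediateField ℚ E} {σ : L ≃ₐ[ℚ] L} :
    σ ∈ sgp x0 F ↔ ∀ y ∈ F, σ (x0 y) = x0 y := by
  rw [sgp, IntermediateField.mem_fixingSubgroup_iff]
  constructor
  · intro h y hy
    exact h _ ((IntermediateField.mem_map _).2 ⟨y, hy, rfl⟩)
  · rintro h z hz
    obtain ⟨y, hy, rfl⟩ := (IntermediateField.mem_map _).1 hz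
    exact h y hy

private theorem sgp_injective (x0 : E →ₐ[ℚ] L) :
    Function.Injective (sgp x0 : IntermediateField ℚ E → Subgroup (L ≃ₐ[ℚ] L)) := by
  intro F F' h
  have h1 : F.map x0 = F'.map x0 := by
    rw [← IsGalois.fixedField_fixingSubgroup (F.map x0),
      ← IsGalois.fixedField_fixingSubgroup (F'.map x0)]
    exact congrArg IntermediateField.fixedField h
  exact IntermediateField.map_injective x0 h1

private theorem stab_le_sgp (x0 : E →ₐ[ℚ] L) (F : IntermediateField ℚ E) :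
    MulAction.stabilizer (L ≃ₐ[ℚ] L) x0 ≤ sgp x0 F := by
  intro σ hσ
  rw [mem_sgp]
  intro y _
  exact DFunLike.congr_fun (MulAction.mem_stabilizer_iff.1 hσ) y

private theorem index_sgp (x0 : E →ₐ[ℚ] L) (F : IntermediateField ℚ E) :
    (sgp x0 F).index = finrank ℚ F := by
  rw [sgp, ← Pool.Agent.Lib.MP_938ce2_ag_u2.H7.finrank_eq_index]
  exact (F.equivMap x0).toLinearEquiv.finrank_eq.symm

private theorem sgp_anti (x0 : E →ₐ[ℚ] L) {F F' : IntermediateField ℚ E} (h : F ≤ F') :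
    sgp x0 F' ≤ sgp x0 F := by
  intro σ hσ
  rw [mem_sgp] at hσ ⊢
  exact fun y hy => hσ y (h hy)

private theorem conj_notMem_sgp (x0 : E →ₐ[ℚ] L) (F : IntermediateField ℚ E) (hF : IsCMField F) :
    conj L ∉ sgp x0 F := by
  intro h
  rw [mem_sgp] at h
  refine IsCMField.complexConj_ne_one F ?_
  ext y
  have h1 := Pool.Agent.Lib.MP_938ce2_ag_u2.H7.conj_smul_apply (L := L) (x0.comp F.val) y
  have h2 := h y y.2
  have h3 : x0.comp F.val (IsCMField.complexConj F y) = x0.comp F.val y :=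
    h1.symm.trans h2
  exact congrArg Subtype.val ((x0.comp F.val).injective h3)

private theorem sgp_mem_quad (x0 : E →ₐ[ℚ] L) {F : IntermediateField ℚ E} (hF : F ∈ ImagQuad E) :
    sgp x0 F ∈ Quad (G := L ≃ₐ[ℚ] L) (conj L) x0 := by
  obtain ⟨h1, h2⟩ := hF
  exact ⟨stab_le_sgp x0 F, by rw [index_sgp, h2], conj_notMem_sgp x0 F h1⟩

theorem ncard_imagQuad_le (x0 : E →ₐ[ℚ] L) :
    (ImagQuad E).ncard ≤ (Quad (G := L ≃ₐ[ℚ] L) (conj L) x0).ncard := by
  exact Set.ncard_le_ncard_of_injOn (sgp x0) (fun F hF => sgp_mem_quad x0 hF)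
    (sgp_injective x0).injOn (Set.toFinite _)

/-- the group theoretic part -/
private theorem exists_second {G X : Type} [Group G] [MulAction G X] (c : G)
    (hc : ∀ σ : G, c * σ = σ * c) (hcc : c * c = 1) (x0 : X) (K K' : Subgroup G)
    (hs : MulAction.stabilizer G x0 ≤ K) (h4 : K.index = 4) (hcK : c ∉ K)
    (hK' : K' ∈ Quad c x0) (hle : K ≤ K') : ∃ K'' ∈ Quad c x0, K = K' ⊓ K'' := by
  let M : Subgroup G :=
    { carrier := {σ | σ ∈ K ∨ σ * c ∈ K}
      mul_mem' := by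
        rintro a b (ha | ha) (hb | hb)
        · exact Or.inl (K.mul_mem ha hb)
        · right
          rw [mul_assoc]
          exact K.mul_mem ha hb
        · right
          have h : a * b * c = a * c * b := by rw [mul_assoc, ← hc b, ← mul_assoc]
          rw [h]
          exact K.mul_mem ha hb
        · left
          have h : a * b = a * c * (b * c) := by
            rw [mul_assoc, ← hc b, ← mul_assoc c c b, hcc, one_mul]
          rw [h]
          exact K.mul_mem ha hb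
      one_mem' := Or.inl K.one_mem
      inv_mem' := by
        rintro a (ha | ha)
        · exact Or.inl (K.inv_mem ha)
        · right
          have h1 : c⁻¹ = c := inv_eq_of_mul_eq_one_left hcc
          have h : a⁻¹ * c = (a * c)⁻¹ := by
            rw [mul_inv_rev, h1, hc]
          rw [h]
          exact K.inv_mem ha }
  have hM : ∀ σ, σ ∈ M ↔ σ ∈ K ∨ σ * c ∈ K := fun σ => Iff.rfl
  have hcM : c ∈ M := (hM c).2 (Or.inr (by rw [hcc]; exact K.one_mem))
  have hKM : K ≤ M := fun σ h => (hM σ).2 (Or.inl h)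
  have hM2 : M.index = 2 := by
    have h1 : K.relIndex M = 2 := by
      rw [Subgroup.relIndex, Subgroup.index_eq_two_iff]
      refine ⟨⟨c, hcM⟩, fun b => ?_⟩
      have e1 : (b * ⟨c, hcM⟩ ∈ K.subgroupOf M) ↔ (b : G) * c ∈ K := Iff.rfl
      have e2 : (b ∈ K.subgroupOf M) ↔ (b : G) ∈ K := Iff.rfl
      rw [e1, e2]
      rcases (hM b).1 b.2 with h | h
      · refine Or.inr ⟨h, fun h' => hcK ?_⟩
        have := K.mul_mem (K.inv_mem h) h'
        rwa [inv_mul_cancel_left] at this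
      · refine Or.inl ⟨h, fun h' => hcK ?_⟩
        have := K.mul_mem (K.inv_mem h') h
        rwa [inv_mul_cancel_left] at this
    have h2 := Subgroup.relIndex_mul_index hKM
    rw [h1, h4] at h2
    omega
  obtain ⟨hs', h2', hcK'⟩ := hK'
  let K'' : Subgroup G :=
    { carrier := {σ | σ ∈ K' ↔ σ ∈ M}
      mul_mem' := by
        intro a b ha hb
        change (a ∈ K' ↔ a ∈ M) at ha
        change (b ∈ K' ↔ b ∈ M) at hb
        change (a * b ∈ K' ↔ a * b ∈ M)
        rw [Subgroup.mul_mem_iff_of_index_two h2', Subgroup.mul_mem_iff_of_index_two hM2, ha, hb]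
      one_mem' := ⟨fun _ => M.one_mem, fun _ => K'.one_mem⟩
      inv_mem' := by
        intro a ha
        change (a ∈ K' ↔ a ∈ M) at ha
        change (a⁻¹ ∈ K' ↔ a⁻¹ ∈ M)
        rw [K'.inv_mem_iff, M.inv_mem_iff, ha] }
  have hK'' : ∀ σ, σ ∈ K'' ↔ (σ ∈ K' ↔ σ ∈ M) := fun σ => Iff.rfl
  have hKK'' : K ≤ K'' := fun σ h => (hK'' σ).2 ⟨fun _ => hKM h, fun _ => hle h⟩
  refine ⟨K'', ⟨hs.trans hKK'', ?_, ?_⟩, ?_⟩
  · rw [Subgroup.index_eq_two_iff]
    refine ⟨c, fun b => ?_⟩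
    rw [hK'', hK'', Subgroup.mul_mem_iff_of_index_two h2', Subgroup.mul_mem_iff_of_index_two hM2]
    unfold Xor
    by_cases hb : b ∈ K' <;> by_cases hb' : b ∈ M <;> simp [hb, hb', hcM, hcK']
  · rw [hK'']
    tauto
  · refine le_antisymm (le_inf hle hKK'') ?_
    rintro σ ⟨h1, h2⟩
    rcases (hM σ).1 ((hK'' σ).1 h2 |>.1 h1) with h | h
    · exact h
    · refine absurd ?_ hcK'
      have := K'.mul_mem (K'.inv_mem h1) (hle h)
      rwa [inv_mul_cancel_left] at this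

/-- a subgroup `K` of index four, `c ∉ K`, contained in `K' ∈ Quad` is the intersection of `K'` and of another
element of `Quad`: at most `|Quad|²` such subgroups -/
theorem ncard_smallCM_le (x0 : E →ₐ[ℚ] L) :
    (SmallCM E).ncard ≤ (Quart (G := L ≃ₐ[ℚ] L) (conj L) x0).ncard
      + (Sext (G := L ≃ₐ[ℚ] L) (conj L) x0).ncard
      + (Quad (G := L ≃ₐ[ℚ] L) (conj L) x0).ncard ^ 2 := by
  set Q := Quad (G := L ≃ₐ[ℚ] L) (conj L) x0 with hQ
  set W : Set (Subgroup (L ≃ₐ[ℚ] L)) := (fun p : Subgroup (L ≃ₐ[ℚ] L) × Subgroup (L ≃ₐ[ℚ] L) =>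
    p.1 ⊓ p.2) '' (Q ×ˢ Q) with hW
  have hWc : W.ncard ≤ Q.ncard ^ 2 := by
    refine (Set.ncard_image_le (Set.toFinite _)).trans ?_
    rw [Set.ncard_prod, sq]
  have hmaps : ∀ F ∈ SmallCM E, sgp x0 F ∈ (Quart (G := L ≃ₐ[ℚ] L) (conj L) x0
      ∪ Sext (G := L ≃ₐ[ℚ] L) (conj L) x0) ∪ W := by
    rintro F ⟨hcm, h4 | ⟨h6, k, hk, hkF⟩⟩
    · have hi : (sgp x0 F).index = 4 := by rw [index_sgp, h4]
      have hc := conj_notMem_sgp x0 F hcm
      by_cases hex : ∃ K' ∈ Q, sgp x0 F ≤ K'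
      · obtain ⟨K', hK', hle⟩ := hex
        obtain ⟨K'', hK'', he⟩ := exists_second (conj L)
          Pool.Agent.Lib.MP_938ce2_ag_h60.conj_comm Pool.Agent.Lib.MP_938ce2_ag_h60.conj_mul_self
          x0 (sgp x0 F) K' (stab_le_sgp x0 F) hi hc hK' hle
        exact Or.inr ⟨(K', K''), ⟨hK', hK''⟩, he.symm⟩
      · push Not at hex
        exact Or.inl (Or.inl ⟨stab_le_sgp x0 F, hi, hc, hex⟩)
    · exact Or.inl (Or.inr ⟨stab_le_sgp x0 F, by rw [index_sgp, h6], conj_notMem_sgp x0 F hcm,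
        sgp x0 k, sgp_mem_quad x0 hk, sgp_anti x0 hkF⟩)
  refine (Set.ncard_le_ncard_of_injOn (sgp x0) hmaps (sgp_injective x0).injOn
    (Set.toFinite _)).trans ?_
  refine (Set.ncard_union_le _ _).trans (Nat.add_le_add (Set.ncard_union_le _ _) hWc)

/-- `min 1 (a / √g + (b + a²) / g) ≤ 2 min 1 (a / √g + b / g)`; the number of all CM types is `2 ^ g`
(`u2.card_cm_all`); `Act` as in `u4/Final4.lean` -/
theorem lower_field : ∀ η : ℝ, 0 < η → ∃ g₀ : ℕ, ∀ (L E : Type) [Field L] [NumberField L]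
    [IsGalois ℚ L] [IsCMField L] [Field E] [NumberField E] [IsCMField E] [Nonempty (E →ₐ[ℚ] L)],
    g₀ ≤ finrank ℚ E → (1 / 6000) * min 1 (meas E) ≤ share L E + η := by
  intro η hη
  obtain ⟨g₀, hg₀⟩ := lower_G η hη
  refine ⟨2 * g₀, ?_⟩
  intro L E _ _ _ _ _ _ _ hne hg
  classical
  have hne' := hne
  obtain ⟨x0⟩ := hne'
  obtain ⟨g, hE⟩ : ∃ g : ℕ, finrank ℚ E = 2 * g := ⟨_, IsTotallyComplex.finrank E⟩
  have hg1 : 1 ≤ g := by
    have : 0 < finrank ℚ E := finrank_pos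
    omega
  have hA : Act (L ≃ₐ[ℚ] L) (E →ₐ[ℚ] L) (conj L) g := by
    refine ⟨?_, ?_, ?_, ?_, hg1⟩
    · exact Pool.Agent.Lib.MP_938ce2_ag_h60.conj_comm
    · exact Pool.Agent.Lib.MP_938ce2_ag_h60.conj_mul_self
    · exact fun φ => Pool.Agent.Lib.MP_938ce2_ag_h60.conj_smul_ne φ
    · rw [← hE]
      exact Pool.Agent.Lib.MP_938ce2_ag_h60.card_emb
  have : MulAction.IsPretransitive (L ≃ₐ[ℚ] L) (E →ₐ[ℚ] L) :=
    ⟨fun x y => Pool.Agent.Lib.MP_938ce2_ag_h60.exists_smul_emb x y⟩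
  have h1 := hg₀ (L ≃ₐ[ℚ] L) (E →ₐ[ℚ] L) (conj L) g x0 hA (by omega)
  have h2 := ncard_imagQuad_le (L := L) x0
  have h3 := ncard_smallCM_le (L := L) x0
  have h4 := Pool.Agent.Lib.MP_938ce2_ag_u2.card_cm_all hA
  have hgR : (1 : ℝ) ≤ g := by exact_mod_cast hg1
  have hg0 : (0 : ℝ) < g := by linarith
  have hsq : (0 : ℝ) < √g := Real.sqrt_pos.2 hg0
  have hsq2 : √g * √g = (g : ℝ) := Real.mul_self_sqrt hg0.le
  have hhalf : (finrank ℚ E : ℝ) / 2 = g := by
    rw [hE]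
    push_cast
    ring
  have h5 : share L E = (Nat.card {Φ : Finset (E →ₐ[ℚ] L) //
      CMType (conj L) Φ ∧ ¬ GeneratedByDivisors (L ≃ₐ[ℚ] L) Φ} : ℝ) / 2 ^ g := by
    rw [share, h4]
    push_cast
    rfl
  rw [h5, meas, hhalf]
  generalize (Nat.card {Φ : Finset (E →ₐ[ℚ] L) //
      CMType (conj L) Φ ∧ ¬ GeneratedByDivisors (L ≃ₐ[ℚ] L) Φ} : ℝ) / 2 ^ g = T at h1 ⊢
  generalize (Quad (G := L ≃ₐ[ℚ] L) (conj L) x0).ncard = A at h1 h2 h3
  generalize (Quart (G := L ≃ₐ[ℚ] L) (conj L) x0).ncard = B1 at h1 h3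
  generalize (Sext (G := L ≃ₐ[ℚ] L) (conj L) x0).ncard = B2 at h1 h3
  generalize (ImagQuad E).ncard = a at h2 ⊢
  generalize (SmallCM E).ncard = b at h3 ⊢
  have h2R : (a : ℝ) ≤ A := by exact_mod_cast h2
  have h3R : (b : ℝ) ≤ B1 + B2 + (A : ℝ) ^ 2 := by exact_mod_cast h3
  have h6 : (a : ℝ) / √g + b / g ≤ A / √g + (((B1 : ℝ) + B2) / g + ((A : ℝ) / √g) ^ 2) := by
    refine add_le_add (div_le_div_of_nonneg_right h2R hsq.le) ?_
    rw [div_pow, sq (√(g : ℝ)), hsq2, ← add_div]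
    exact div_le_div_of_nonneg_right h3R hg0.le
  have h7 : min 1 ((a : ℝ) / √g + b / g) ≤ 2 * min 1 ((A : ℝ) / √g + ((B1 : ℝ) + B2) / g) := by
    have hs0 : (0 : ℝ) ≤ A / √g := by positivity
    have hb0 : (0 : ℝ) ≤ ((B1 : ℝ) + B2) / g := by positivity
    rcases le_total 1 ((A : ℝ) / √g + ((B1 : ℝ) + B2) / g) with h | h
    · rw [min_eq_left h]
      exact (min_le_left _ _).trans (by norm_num)
    · rw [min_eq_right h]
      refine (min_le_right _ _).trans (h6.trans ?_)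
      have hs1 : (A : ℝ) / √g ≤ 1 := by linarith
      nlinarith
  linarith

end Pool.Agent.Lib.MP_938ce2_ag_L3
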