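import Pool.Agent.Lib.MP_938ce2_ag_L3.F1
import Pool.Agent.Lib.MP_938ce2_ag_u5.Final5

/-!
Two-sided bound and criterion. The upper bound is `MP_938ce2_ag_u5.upper_field` (helper30).
-/

set_option autoImplicit false
set_option linter.unusedSectionVars false

namespace Pool.Agent.Lib.MP_938ce2_ag_L3

open Module NumberField Filter Topology

private theorem share_nonneg (L E : Type) [Field L] [NumberField L] [IsCMField L] [Field E]
    [NumberField E] : 0 ≤ share L E := by
  unfold share
  positivity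

private theorem meas_nonneg (E : Type) [Field E] [NumberField E] : 0 ≤ meas E := by
  unfold meas
  positivity

/-- two-sided bound -/
theorem two_sided : ∃ C : ℝ, 0 < C ∧ ∀ η : ℝ, 0 < η → ∃ g₀ : ℕ, ∀ (L E : Type) [Field L]
    [NumberField L] [IsGalois ℚ L] [IsCMField L] [Field E] [NumberField E] [IsCMField E]
    [Nonempty (E →ₐ[ℚ] L)], g₀ ≤ finrank ℚ E →
    min 1 (meas E) ≤ C * share L E + η ∧ (AbelianSubfields E → share L E ≤ η + C * meas E) := by
  obtain ⟨C, hC, hup⟩ := Pool.Agent.Lib.MP_938ce2_ag_u5.upper_field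
  refine ⟨max 6000 C, lt_max_of_lt_right hC, fun η hη => ?_⟩
  obtain ⟨g₁, h1⟩ := lower_field (η / 6000) (by positivity)
  obtain ⟨g₂, h2⟩ := hup η hη
  refine ⟨max g₁ g₂, ?_⟩
  intro L E _ _ _ _ _ _ _ _ hg
  constructor
  · have h3 := h1 L E ((le_max_left _ _).trans hg)
    have h4 : 6000 * share L E ≤ max 6000 C * share L E :=
      mul_le_mul_of_nonneg_right (le_max_left _ _) (share_nonneg L E)
    linarith
  · intro hab
    have h3 := h2 L E ((le_max_right _ _).trans hg) hab
    have h4 : C * meas E ≤ max 6000 C * meas E :=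
      mul_le_mul_of_nonneg_right (le_max_right _ _) (meas_nonneg E)
    linarith

theorem criterion : ∀ (L E : ℕ → Type) [∀ i, Field (L i)] [∀ i, NumberField (L i)]
    [∀ i, IsGalois ℚ (L i)] [∀ i, IsCMField (L i)] [∀ i, Field (E i)] [∀ i, NumberField (E i)]
    [∀ i, IsCMField (E i)] [∀ i, Nonempty (E i →ₐ[ℚ] L i)],
    Tendsto (fun i => finrank ℚ (E i)) atTop atTop → (∀ i, AbelianSubfields (E i)) →
    (Tendsto (fun i => share (L i) (E i)) atTop (𝓝 0) ↔
      Tendsto (fun i => ((ImagQuad (E i)).ncard : ℝ) / √(finrank ℚ (E i) : ℝ)) atTop (𝓝 0) ∧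
      Tendsto (fun i => ((SmallCM (E i)).ncard : ℝ) / (finrank ℚ (E i) : ℝ)) atTop (𝓝 0)) := by
  intro L E _ _ _ _ _ _ _ _ hlim hab
  obtain ⟨C, hC, hts⟩ := two_sided
  have hmeas : ∀ i, meas (E i) =
      √2 * (((ImagQuad (E i)).ncard : ℝ) / √(finrank ℚ (E i) : ℝ)) +
        2 * (((SmallCM (E i)).ncard : ℝ) / (finrank ℚ (E i) : ℝ)) := by
    intro i
    have hpos : (0 : ℝ) < (finrank ℚ (E i) : ℝ) := by exact_mod_cast (finrank_pos : 0 < _)
    have h2 : (0 : ℝ) < √2 := by positivity
    have h3 : (0 : ℝ) < √(finrank ℚ (E i) : ℝ) := Real.sqrt_pos.2 hpos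
    rw [meas, Real.sqrt_div hpos.le]
    field_simp
  constructor
  · intro hs
    have hm : Tendsto (fun i => meas (E i)) atTop (𝓝 0) := by
      rw [Metric.tendsto_atTop]
      intro ε hε
      set δ := min ε 1 / 2 with hδ
      have hδ0 : 0 < δ := by positivity
      have hδ1 : δ < 1 := by
        have := min_le_right ε 1
        rw [hδ]
        linarith
      have hδε : δ < ε := by
        have := min_le_left ε 1
        have h1 : 0 < min ε 1 := lt_min hε one_pos
        rw [hδ]
        linarith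
      obtain ⟨g₀, hg₀⟩ := hts (δ / 2) (by positivity)
      obtain ⟨N₁, hN₁⟩ := (tendsto_atTop_atTop.1 hlim) g₀
      obtain ⟨N₂, hN₂⟩ := (Metric.tendsto_atTop.1 hs) (δ / (2 * C)) (by positivity)
      refine ⟨max N₁ N₂, fun i hi => ?_⟩
      have h1 := (hg₀ (L i) (E i) (hN₁ i ((le_max_left _ _).trans hi))).1
      have h2 := hN₂ i ((le_max_right _ _).trans hi)
      rw [Real.dist_eq, sub_zero, abs_of_nonneg (share_nonneg _ _)] at h2
      have h3 : C * share (L i) (E i) < δ / 2 := by
        calc C * share (L i) (E i) < C * (δ / (2 * C)) := mul_lt_mul_of_pos_left h2 hC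
          _ = δ / 2 := by field_simp
      have h4 : min 1 (meas (E i)) < δ := by linarith
      rw [Real.dist_eq, sub_zero, abs_of_nonneg (meas_nonneg _)]
      rcases min_lt_iff.1 h4 with h5 | h5
      · linarith
      · linarith
    constructor
    · refine squeeze_zero (fun i => by positivity) (fun i => ?_) hm
      rw [hmeas i]
      have h1 : (1 : ℝ) ≤ √2 := by
        rw [Real.one_le_sqrt]
        norm_num
      have h2 : (0 : ℝ) ≤ ((ImagQuad (E i)).ncard : ℝ) / √(finrank ℚ (E i) : ℝ) := by positivity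
      have h3 : (0 : ℝ) ≤ 2 * (((SmallCM (E i)).ncard : ℝ) / (finrank ℚ (E i) : ℝ)) := by
        positivity
      nlinarith
    · refine squeeze_zero (fun i => by positivity) (fun i => ?_) hm
      rw [hmeas i]
      have h2 : (0 : ℝ) ≤ √2 * (((ImagQuad (E i)).ncard : ℝ) / √(finrank ℚ (E i) : ℝ)) := by
        positivity
      have h3 : (0 : ℝ) ≤ ((SmallCM (E i)).ncard : ℝ) / (finrank ℚ (E i) : ℝ) := by
        positivity
      linarith
  · rintro ⟨ha, hb⟩
    have hm : Tendsto (fun i => meas (E i)) atTop (𝓝 0) := by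
      have h1 := (ha.const_mul √2).add (hb.const_mul 2)
      rw [mul_zero, mul_zero, add_zero] at h1
      exact h1.congr fun i => (hmeas i).symm
    rw [Metric.tendsto_atTop]
    intro ε hε
    obtain ⟨g₀, hg₀⟩ := hts (ε / 2) (by positivity)
    obtain ⟨N₁, hN₁⟩ := (tendsto_atTop_atTop.1 hlim) g₀
    obtain ⟨N₂, hN₂⟩ := (Metric.tendsto_atTop.1 hm) (ε / (2 * C)) (by positivity)
    refine ⟨max N₁ N₂, fun i hi => ?_⟩
    have h1 := (hg₀ (L i) (E i) (hN₁ i ((le_max_left _ _).trans hi))).2 (hab i)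
    have h2 := hN₂ i ((le_max_right _ _).trans hi)
    rw [Real.dist_eq, sub_zero, abs_of_nonneg (meas_nonneg _)] at h2
    have h3 : C * meas (E i) < ε / 2 := by
      calc C * meas (E i) < C * (ε / (2 * C)) := mul_lt_mul_of_pos_left h2 hC
        _ = ε / 2 := by field_simp
    rw [Real.dist_eq, sub_zero, abs_of_nonneg (share_nonneg _ _)]
    linarith

end Pool.Agent.Lib.MP_938ce2_ag_L3
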