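import Mathlib
import Pool.Agent.Lib.MP_938ce2_ag_u2.Half

/-!
MP_938ce2_ag, sharp count of the degenerate CM types: definitions for the lower bound.

`G` is a finite group acting transitively on `X`, `c` a central involution without fixed points on `X`,
`x0 : X` a base point. The subfields of the CM field correspond to the subgroups `K` which contain the
stabilizer of `x0`; the block of `σ • x0` is `σ K x0`.
-/

set_option autoImplicit false
set_option linter.unusedSectionVars false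

namespace Pool.Agent.Lib.MP_938ce2_ag_L3

open Finset Module
open Pool.Agent.Lib.MP_938ce2_ag_h67 (sg)
open Pool.Agent.Lib.MP_938ce2_ag_h60 (CMType GeneratedByDivisors Nondeg)
open Pool.Agent.Lib.MP_938ce2_ag_u2 (Act)

section

variable {G X : Type} [Group G] [MulAction G X]

/-- the imaginary quadratic subfields -/
def Quad (c : G) (x0 : X) : Set (Subgroup G) :=
  {K | MulAction.stabilizer G x0 ≤ K ∧ K.index = 2 ∧ c ∉ K}

/-- the quartic CM subfields without imaginary quadratic subfields -/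
def Quart (c : G) (x0 : X) : Set (Subgroup G) :=
  {K | MulAction.stabilizer G x0 ≤ K ∧ K.index = 4 ∧ c ∉ K ∧ ∀ K' ∈ Quad c x0, ¬ K ≤ K'}

/-- the sextic CM subfields with an imaginary quadratic subfield -/
def Sext (c : G) (x0 : X) : Set (Subgroup G) :=
  {K | MulAction.stabilizer G x0 ≤ K ∧ K.index = 6 ∧ c ∉ K ∧ ∃ K' ∈ Quad c x0, K ≤ K'}

/-- the odd functions which are constant on the blocks of `K` -/
def VK (c : G) (x0 : X) (K : Subgroup G) : Submodule ℚ (X → ℚ) where
  carrier := {v | (∀ x, v (c • x) = - v x) ∧ ∀ σ : G, ∀ k ∈ K, v ((σ * k) • x0) = v (σ • x0)}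
  add_mem' := by
    rintro v w ⟨h1, h2⟩ ⟨h3, h4⟩
    refine ⟨fun x => ?_, fun σ k hk => ?_⟩
    · simp only [Pi.add_apply, h1, h3]
      ring
    · simp only [Pi.add_apply, h2 σ k hk, h4 σ k hk]
  zero_mem' := ⟨fun x => by simp, fun σ k hk => by simp⟩
  smul_mem' := by
    rintro a v ⟨h1, h2⟩
    refine ⟨fun x => ?_, fun σ k hk => ?_⟩
    · simp only [Pi.smul_apply, h1, smul_eq_mul]
      ring
    · simp only [Pi.smul_apply, h2 σ k hk]

lemma mem_VK {c : G} {x0 : X} {K : Subgroup G} {v : X → ℚ} : v ∈ VK c x0 K ↔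
    (∀ x, v (c • x) = - v x) ∧ ∀ σ : G, ∀ k ∈ K, v ((σ * k) • x0) = v (σ • x0) := Iff.rfl

/-- the CM type is primitive: it is not induced from a proper subfield -/
def Prim (G : Type) {X : Type} [Group G] [MulAction G X] (Φ : Finset X) : Prop :=
  ∀ x y : X, (∀ σ : G, σ • x ∈ Φ ↔ σ • y ∈ Φ) → x = y

variable [Fintype X] [DecidableEq X]

open Classical in
/-- the block `K x0` -/
noncomputable def bl (K : Subgroup G) (x0 : X) : Finset X := univ.filter fun x => ∃ k ∈ K, k • x0 = x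

/-- the functions in `VK` with sum zero over `K' x0` -/
def VS (c : G) (x0 : X) (K K' : Subgroup G) : Submodule ℚ (X → ℚ) where
  carrier := {v | v ∈ VK c x0 K ∧ ∑ x ∈ bl K' x0, v x = 0}
  add_mem' := by
    rintro v w ⟨h1, h2⟩ ⟨h3, h4⟩
    refine ⟨add_mem h1 h3, ?_⟩
    simp only [Pi.add_apply, sum_add_distrib, h2, h4, add_zero]
  zero_mem' := ⟨zero_mem _, by simp⟩
  smul_mem' := by
    rintro a v ⟨h1, h2⟩
    refine ⟨Submodule.smul_mem _ a h1, ?_⟩
    simp only [Pi.smul_apply, smul_eq_mul, ← mul_sum, h2, mul_zero]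

lemma mem_VS {c : G} {x0 : X} {K K' : Subgroup G} {v : X → ℚ} : v ∈ VS c x0 K K' ↔
    v ∈ VK c x0 K ∧ ∑ x ∈ bl K' x0, v x = 0 := Iff.rfl

open Classical in
/-- the CM types orthogonal to `V` -/
noncomputable def orthT (c : G) (V : Submodule ℚ (X → ℚ)) : Finset (Finset X) :=
  univ.filter fun Φ => CMType c Φ ∧ ∀ v ∈ V, ∑ x, (sg Φ x : ℚ) * v x = 0

lemma mem_orthT {c : G} {V : Submodule ℚ (X → ℚ)} {Φ : Finset X} : Φ ∈ orthT c V ↔
    CMType c Φ ∧ ∀ v ∈ V, ∑ x, (sg Φ x : ℚ) * v x = 0 := by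
  classical
  unfold orthT
  rw [mem_filter]
  exact ⟨fun h => h.2, fun h => ⟨mem_univ _, h⟩⟩

end

end Pool.Agent.Lib.MP_938ce2_ag_L3
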